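import Pool.Agent.TR80.Stm
set_option autoImplicit false

/-!
TR80-CN, TR80-CONN (helper23)
-/

namespace Pool.Agent.TR80

open Pool.Agent.Y865.RF Pool.Agent.Y655.RF

theorem t_CN : S_CN := by
  intro V _ _ S G hT hS u v huv
  obtain ⟨-, hin, hws, hE⟩ := hT
  by_contra hcon
  have h1 := card_ctr huv
  have hu := (hin u v huv).1
  have hv := (hin u v huv).2
  have h2 : In (S.erase v) (ctr G u v) := by
    rintro x y ⟨k1, k2, k3, k4⟩
    rw [Finset.mem_erase, Finset.mem_erase]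
    rcases k4 with k4 | ⟨rfl, k4⟩ | ⟨rfl, k4⟩
    · exact ⟨⟨k1, (hin _ _ k4).1⟩, ⟨k2, (hin _ _ k4).2⟩⟩
    · exact ⟨⟨k1, (hin _ _ huv).1⟩, ⟨k2, (hin _ _ k4).2⟩⟩
    · exact ⟨⟨k1, (hin _ _ k4).2⟩, ⟨k2, (hin _ _ huv).1⟩⟩
  have h3 : ¬ WS ((S.erase v : Finset V) : Set V) (ctr G u v) := by
    intro h
    apply hws
    refine ws_ctr huv ?_ ?_ hv h
    · intro h4
      exact Finset.notMem_erase v S (Finset.mem_coe.1 h4)
    · intro x hx
      exact Finset.mem_coe.2 (Finset.mem_of_mem_erase (Finset.mem_coe.1 hx))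
  have h4 : (S.erase v).card = S.card - 1 := Finset.card_erase_of_mem hv
  have h5 := mader_le h2 h3 (by omega)
  omega

theorem conn_aux {V : Type} [Fintype V] [DecidableEq V] {S A : Finset V} {G : SimpleGraph V}
    (hws : ¬ WS (S : Set V) G) (hA : A ⊆ S) (h1 : 1 ≤ A.card) :
    (EE (res G A)).card + 6 ≤ 6 * A.card ∧
      (2 ≤ A.card → (EE (res G A)).card + 10 ≤ 6 * A.card) := by
  have hin : In A (res G A) := fun x y h => ⟨h.1, h.2.1⟩
  by_cases h3 : 3 ≤ A.card
  · have h4 : ¬ WS (A : Set V) (res G A) := by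
      intro h
      exact hws (ws_mono (G := G) (H := res G A) (fun x y h => h.2.2) (Finset.coe_subset.2 hA) h)
    have := mader_le hin h4 h3
    omega
  · have h5 := card_EE_le hin
    have h6 : A.card = 1 ∨ A.card = 2 := by omega
    rcases h6 with h6 | h6
    · rw [h6] at h5 ⊢; omega
    · rw [h6] at h5 ⊢; omega

theorem t_CONN : S_CONN := by
  intro V _ _ S G hT u hu v hv
  classical
  obtain ⟨h3, hin, hws, hE⟩ := hT
  by_contra hcon
  let A : Finset V := S.filter (fun x => Cn G (S : Set V) u x)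
  let B : Finset V := S.filter (fun x => ¬ Cn G (S : Set V) u x)
  have hA : A ⊆ S := Finset.filter_subset _ _
  have hB : B ⊆ S := Finset.filter_subset _ _
  have huA : u ∈ A := Finset.mem_filter.2 ⟨hu, cn_refl G (Finset.mem_coe.2 hu)⟩
  have hvB : v ∈ B := Finset.mem_filter.2 ⟨hv, hcon⟩
  have hAc : 1 ≤ A.card := Finset.card_pos.2 ⟨u, huA⟩
  have hBc : 1 ≤ B.card := Finset.card_pos.2 ⟨v, hvB⟩
  have hAB : A.card + B.card = S.card := Finset.card_filter_add_card_filter_not _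
  have hsub : EE G ⊆ EE (res G A) ∪ EE (res G B) := by
    intro p hp
    have hp' := mem_EE.1 hp
    obtain ⟨k1, k2⟩ := hin _ _ hp'
    rw [Finset.mem_union, mem_EE, mem_EE]
    by_cases h : Cn G (S : Set V) u p.1
    · left
      refine ⟨Finset.mem_filter.2 ⟨k1, h⟩, Finset.mem_filter.2 ⟨k2, ?_⟩, hp'⟩
      exact cn_trans h (cn_edge hp' (Finset.mem_coe.2 k1) (Finset.mem_coe.2 k2))
    · right
      refine ⟨Finset.mem_filter.2 ⟨k1, h⟩, Finset.mem_filter.2 ⟨k2, ?_⟩, hp'⟩
      intro h'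
      exact h (cn_trans h' (cn_edge hp'.symm (Finset.mem_coe.2 k2) (Finset.mem_coe.2 k1)))
  have hle := (Finset.card_le_card hsub).trans (Finset.card_union_le _ _)
  have e1 := conn_aux hws hA hAc
  have e2 := conn_aux hws hB hBc
  have h7 : 2 ≤ A.card ∨ 2 ≤ B.card := by omega
  rcases h7 with h7 | h7
  · have := e1.2 h7
    omega
  · have := e2.2 h7
    omega

end Pool.Agent.TR80
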