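import Pool.Agent.TR80.Stm

/-!
# Project TR80, piece CYC: a cycle in a graph of minimum degree two
-/

set_option autoImplicit false

namespace Pool.Agent.TR80

open Pool.Agent.Y865.RF Pool.Agent.Y655.RF

namespace CYCaux

variable {V : Type} {G : SimpleGraph V}

lemma cn_symm' {S : Set V} {u v : V} (h : Cn G S u v) : Cn G S v u := by
  obtain ⟨w, hw⟩ := h
  refine ⟨w.reverse, fun z hz => hw z ?_⟩
  rwa [SimpleGraph.Walk.support_reverse, List.mem_reverse] at hz

lemma cn_trans' {S : Set V} {u v w : V} (h1 : Cn G S u v) (h2 : Cn G S v w) : Cn G S u w := by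
  obtain ⟨p, hp⟩ := h1
  obtain ⟨q, hq⟩ := h2
  refine ⟨p.append q, fun z hz => ?_⟩
  rw [SimpleGraph.Walk.mem_support_append_iff] at hz
  rcases hz with hz | hz
  · exact hp z hz
  · exact hq z hz

lemma cn_adj {S : Set V} {u v : V} (h : G.Adj u v) (hu : u ∈ S) (hv : v ∈ S) : Cn G S u v := by
  refine ⟨SimpleGraph.Walk.cons h SimpleGraph.Walk.nil, fun z hz => ?_⟩
  rw [SimpleGraph.Walk.support_cons, SimpleGraph.Walk.support_nil, List.mem_cons,
    List.mem_singleton] at hz
  rcases hz with rfl | rfl
  · exact hu
  · exact hv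

lemma seg {f : ℕ → V} {k : ℕ} (hf : ∀ i < k, G.Adj (f i) (f (i + 1))) {S : Set V} {a b : ℕ}
    (hab : a ≤ b) (hb : b ≤ k) (hS : ∀ i, a ≤ i → i ≤ b → f i ∈ S) : Cn G S (f a) (f b) := by
  induction b, hab using Nat.le_induction with
  | base =>
    refine ⟨SimpleGraph.Walk.nil, fun z hz => ?_⟩
    rw [SimpleGraph.Walk.support_nil, List.mem_singleton] at hz
    rw [hz]
    exact hS a le_rfl le_rfl
  | succ b hab ih =>
    exact cn_trans' (ih (by omega) (fun i h1 h2 => hS i h1 (by omega)))
      (cn_adj (hf b (by omega)) (hS b hab (by omega)) (hS (b + 1) (by omega) le_rfl))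

end CYCaux

open CYCaux

theorem t_CYC : S_CYC := by
  intro V _ _ G A hne hdeg
  classical
  let P : ℕ → Prop := fun k => ∃ f : ℕ → V, (∀ i ≤ k, f i ∈ A) ∧
    (∀ i < k, G.Adj (f i) (f (i + 1))) ∧ (∀ i ≤ k, ∀ j ≤ k, f i = f j → i = j)
  have hbd : ∀ k, P k → k ≤ A.card := by
    rintro k ⟨f, h1, -, h3⟩
    have h4 : (Finset.range (k + 1)).card ≤ A.card := by
      apply Finset.card_le_card_of_injOn f
      · intro i hi
        have hi' := Finset.mem_range.1 (Finset.mem_coe.1 hi)
        exact Finset.mem_coe.2 (h1 i (by omega))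
      · intro i hi j hj hij
        have hi' := Finset.mem_range.1 (Finset.mem_coe.1 hi)
        have hj' := Finset.mem_range.1 (Finset.mem_coe.1 hj)
        exact h3 i (by omega) j (by omega) hij
    rw [Finset.card_range] at h4
    omega
  have hP0 : P 0 := by
    obtain ⟨a, ha⟩ := hne
    refine ⟨fun _ => a, fun i _ => ha, fun i hi => absurd hi (by omega), fun i hi j hj _ => ?_⟩
    omega
  have hPk : P (Nat.findGreatest P A.card) := Nat.findGreatest_spec (m := 0) (by omega) hP0
  set k := Nat.findGreatest P A.card with hk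
  have hmax : ¬ P (k + 1) := by
    intro h
    have h1 := Nat.le_findGreatest (hbd _ h) h
    omega
  obtain ⟨f, h1, h2, h3⟩ := hPk
  -- all neighbours of the first vertex are on the path
  have hnb : ∀ y ∈ A, G.Adj (f 0) y → ∃ i ≤ k, y = f i := by
    intro y hy hadj
    by_contra hcon
    push Not at hcon
    apply hmax
    refine ⟨fun i => if i = 0 then y else f (i - 1), ?_, ?_, ?_⟩
    · intro i hi
      by_cases h0 : i = 0
      · simp only [h0, if_true]
        exact hy
      · simp only [h0, if_false]
        exact h1 _ (by omega)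
    · intro i hi
      by_cases h0 : i = 0
      · subst h0
        simp only [if_true]
        exact hadj.symm
      · have e : i + 1 - 1 = i - 1 + 1 := by omega
        simp only [h0, if_false, Nat.succ_ne_zero, e]
        exact h2 (i - 1) (by omega)
    · intro i hi j hj hij
      by_cases h0 : i = 0
      · by_cases h0' : j = 0
        · omega
        · exfalso
          simp only [h0, if_true, h0', if_false] at hij
          exact hcon (j - 1) (by omega) hij
      · by_cases h0' : j = 0
        · exfalso
          simp only [h0, if_false, h0', if_true] at hij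
          exact hcon (i - 1) (by omega) hij.symm
        · simp only [h0, h0', if_false] at hij
          have := h3 (i - 1) (by omega) (j - 1) (by omega) hij
          omega
  obtain ⟨j, hj2, hjk, hjadj⟩ : ∃ j, 2 ≤ j ∧ j ≤ k ∧ G.Adj (f 0) (f j) := by
    by_contra hcon
    push Not at hcon
    have hsub : NN G (f 0) ∩ A ⊆ {f 1} := by
      intro y hy
      rw [Finset.mem_inter, mem_NN] at hy
      obtain ⟨i, hik, rfl⟩ := hnb y hy.2 hy.1
      rw [Finset.mem_singleton]
      have hi0 : i ≠ 0 := by
        rintro rfl
        exact G.loopless.irrefl _ hy.1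
      by_cases hi1 : i = 1
      · rw [hi1]
      · exact absurd hy.1 (hcon i (by omega) hik)
    have h4 := Finset.card_le_card hsub
    rw [Finset.card_singleton] at h4
    have h5 := hdeg (f 0) (h1 0 (by omega))
    omega
  have hinj : ∀ a b, a ≤ j → b ≤ j → f a = f b → a = b := fun a b ha hb h =>
    h3 a (by omega) b (by omega) h
  have hmem : ∀ i ≤ j, f i ∈ (Finset.range (j + 1)).image f := fun i hi =>
    Finset.mem_image_of_mem f (Finset.mem_range.2 (by omega))
  refine ⟨(Finset.range (j + 1)).image f, ?_, ?_, ?_, ?_⟩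
  · intro x hx
    obtain ⟨i, hi, rfl⟩ := Finset.mem_image.1 hx
    rw [Finset.mem_range] at hi
    exact h1 i (by omega)
  · rw [Finset.card_image_of_injOn, Finset.card_range]
    · omega
    · intro a ha b hb hab
      have ha' := Finset.mem_range.1 (Finset.mem_coe.1 ha)
      have hb' := Finset.mem_range.1 (Finset.mem_coe.1 hb)
      exact hinj a b (by omega) (by omega) hab
  · -- connectivity
    have key : ∀ i a b, i ≤ j → a ≤ b → b ≤ j → a ≠ i → b ≠ i →
        Cn G (((Finset.range (j + 1)).image f : Set V) \ {f i}) (f a) (f b) := by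
      intro i a b hi hab hb hai hbi
      have hin : ∀ c, c ≤ j → c ≠ i → f c ∈ (((Finset.range (j + 1)).image f : Set V) \ {f i}) := by
        intro c hc hci
        refine ⟨?_, ?_⟩
        · have := hmem c hc
          exact_mod_cast this
        · intro h
          exact hci (hinj c i hc hi h)
      by_cases hcase : i < a ∨ b < i
      · exact seg h2 hab (by omega) (fun c hc1 hc2 => hin c (by omega) (by omega))
      · have g1 : Cn G (((Finset.range (j + 1)).image f : Set V) \ {f i}) (f 0) (f a) :=
          seg h2 (Nat.zero_le a) (by omega) (fun c hc1 hc2 => hin c (by omega) (by omega))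
        have g2 : Cn G (((Finset.range (j + 1)).image f : Set V) \ {f i}) (f b) (f j) :=
          seg h2 hb hjk (fun c hc1 hc2 => hin c (by omega) (by omega))
        have g3 : Cn G (((Finset.range (j + 1)).image f : Set V) \ {f i}) (f 0) (f j) :=
          cn_adj hjadj (hin 0 (by omega) (by omega)) (hin j le_rfl (by omega))
        exact cn_trans' (cn_symm' g1) (cn_trans' g3 (cn_symm' g2))
    intro z hz x hx y hy hxz hyz
    obtain ⟨i, hi, rfl⟩ := Finset.mem_image.1 hz
    obtain ⟨a, ha, rfl⟩ := Finset.mem_image.1 hx
    obtain ⟨b, hb, rfl⟩ := Finset.mem_image.1 hy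
    rw [Finset.mem_range] at hi ha hb
    have hai : a ≠ i := fun h => hxz (by rw [h])
    have hbi : b ≠ i := fun h => hyz (by rw [h])
    push_cast
    rcases le_total a b with hab | hab
    · have := key i a b (by omega) hab (by omega) hai hbi
      push_cast at this
      exact this
    · have := cn_symm' (key i b a (by omega) hab (by omega) hbi hai)
      push_cast at this
      exact this
  · intro x hx
    obtain ⟨i, hi, rfl⟩ := Finset.mem_image.1 hx
    rw [Finset.mem_range] at hi
    by_cases hij : i = j
    · exact ⟨f 0, hmem 0 (by omega), by rw [hij]; exact hjadj.symm⟩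
    · exact ⟨f (i + 1), hmem (i + 1) (by omega), h2 i (by omega)⟩

end Pool.Agent.TR80
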