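import Pool.Agent.TR80.Stm

/-!
# DD: graphs built up by triangles have no chromatic root in `(1, 2)`
-/

set_option autoImplicit false

namespace Pool.Agent.TR80

open Polynomial Pool.Agent.H207R2.BL Pool.Agent.Y865.RF Pool.Agent.Y655.RF
open Pool.Agent.H257R2.Tutte

namespace DDaux

/-- `G` is obtained from `K₂` by adding `n` vertices, each of them joined at least to two adjacent
vertices -/
def TT : ℕ → ∀ (V : Type), SimpleGraph V → Prop
  | 0, V, G => Nat.card V = 2 ∧ ∀ x y, x ≠ y → G.Adj x y
  | n + 1, V, G => ∃ w x y : V, G.Adj x y ∧ G.Adj w x ∧ G.Adj w y ∧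
      TT n {u : V // u ≠ w} (G.comap Subtype.val)

theorem tt_mono : ∀ (n : ℕ) (V : Type) (G H : SimpleGraph V), G ≤ H → TT n V G → TT n V H := by
  intro n
  induction n with
  | zero =>
    rintro V G H h ⟨h1, h2⟩
    exact ⟨h1, fun x y hxy => h (h2 x y hxy)⟩
  | succ n ih =>
    rintro V G H h ⟨w, x, y, h1, h2, h3, h4⟩
    exact ⟨w, x, y, h h1, h h2, h h3, ih _ _ _ (fun a b hab => h hab) h4⟩

theorem tt_iso : ∀ (n : ℕ) (V W : Type) (G : SimpleGraph V) (H : SimpleGraph W) (e : V ≃ W),
    (∀ a b, G.Adj a b → H.Adj (e a) (e b)) → TT n V G → TT n W H := by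
  intro n
  induction n with
  | zero =>
    rintro V W G H e h ⟨h1, h2⟩
    refine ⟨(Nat.card_congr e).symm.trans h1, fun x y hxy => ?_⟩
    have h3 := h _ _ (h2 (e.symm x) (e.symm y) (fun h4 => hxy (e.symm.injective h4)))
    rwa [Equiv.apply_symm_apply, Equiv.apply_symm_apply] at h3
  | succ n ih =>
    rintro V W G H e h ⟨w, x, y, h1, h2, h3, h4⟩
    refine ⟨e w, e x, e y, h _ _ h1, h _ _ h2, h _ _ h3, ?_⟩
    refine ih {u : V // u ≠ w} {u : W // u ≠ e w} (G.comap Subtype.val) (H.comap Subtype.val)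
      (e.subtypeEquiv (fun a => (e.injective.ne_iff).symm)) ?_ h4
    intro a b hab
    exact h _ _ hab

/-- the deletion of an edge -/
theorem chr_dele {V : Type} [Finite V] (G : SimpleGraph V) (w z : V) (h : G.Adj w z) :
    chr (dele G w z) = chr G + chr (contract (dele G w z) z w) := by
  apply del_con G (dele G w z) z w h.ne'
  · rintro ⟨-, h1, -⟩
    exact h1 ⟨rfl, rfl⟩
  · intro x y
    constructor
    · intro hxy
      by_cases h1 : x = w ∧ y = z
      · exact Or.inr (Or.inr h1)
      · by_cases h2 : x = z ∧ y = w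
        · exact Or.inr (Or.inl h2)
        · exact Or.inl ⟨hxy, h1, h2⟩
    · rintro (hxy | ⟨rfl, rfl⟩ | ⟨rfl, rfl⟩)
      · exact hxy.1
      · exact h.symm
      · exact h

theorem comap_le_contract {V : Type} (G : SimpleGraph V) (w z : V) :
    G.comap (Subtype.val : {u : V // u ≠ w} → V) ≤ contract (dele G w z) z w := by
  intro a b hab
  refine ⟨hab.ne, Or.inl ⟨hab, ?_, ?_⟩⟩
  · rintro ⟨h1, -⟩
    exact a.2 h1
  · rintro ⟨-, h1⟩
    exact b.2 h1

theorem comap_dele {V : Type} (G : SimpleGraph V) (w z : V) :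
    (dele G w z).comap (Subtype.val : {u : V // u ≠ w} → V) =
      G.comap (Subtype.val : {u : V // u ≠ w} → V) := by
  ext a b
  constructor
  · intro h
    exact h.1
  · intro h
    refine ⟨h, ?_, ?_⟩
    · rintro ⟨h1, -⟩
      exact a.2 h1
    · rintro ⟨-, h1⟩
      exact b.2 h1

/-- a vertex with exactly two neighbours, which are adjacent -/
theorem chr_two {V : Type} [Finite V] (G : SimpleGraph V) (w x y : V) (hxy : G.Adj x y)
    (hwx : G.Adj w x) (hwy : G.Adj w y) (hn : ∀ z, G.Adj w z → z = x ∨ z = y) :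
    chr G = (X - 2) * chr (G.comap (Subtype.val : {u : V // u ≠ w} → V)) := by
  have h1 := chr_dele G w y hwy
  have hx1 : (dele G w y).Adj w x := by
    refine ⟨hwx, ?_, ?_⟩
    · rintro ⟨-, h⟩
      exact hxy.ne h
    · rintro ⟨-, h⟩
      exact hwx.ne h.symm
  have h2 := chr_dele (dele G w y) w x hx1
  have h3 := chr_isolated (dele (dele G w y) w x) w (by
    rintro z ⟨⟨h, h', -⟩, h'', -⟩
    rcases hn z h with rfl | rfl
    · exact h'' ⟨rfl, rfl⟩
    · exact h' ⟨rfl, rfl⟩)
  have e1 : contract (dele G w y) y w = G.comap (Subtype.val : {u : V // u ≠ w} → V) := by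
    apply le_antisymm _ (comap_le_contract G w y)
    rintro a b ⟨h, h' | ⟨h', h''⟩ | ⟨h', h''⟩⟩
    · exact h'.1
    · obtain ⟨k1, k2, -⟩ := h''
      rcases hn _ k1 with k | k
      · change G.Adj a.1 b.1
        rw [h', k]
        exact hxy.symm
      · exact absurd ⟨rfl, k⟩ k2
    · obtain ⟨k1, k2, -⟩ := h''
      rcases hn _ k1 with k | k
      · change G.Adj a.1 b.1
        rw [h', k]
        exact hxy
      · exact absurd ⟨rfl, k⟩ k2
  have e2 : contract (dele (dele G w y) w x) x w =
      G.comap (Subtype.val : {u : V // u ≠ w} → V) := by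
    apply le_antisymm
    · rintro a b ⟨h, h' | ⟨h', h''⟩ | ⟨h', h''⟩⟩
      · exact h'.1.1
      · obtain ⟨⟨k1, k2, -⟩, k3, -⟩ := h''
        rcases hn _ k1 with k | k
        · exact absurd ⟨rfl, k⟩ k3
        · exact absurd ⟨rfl, k⟩ k2
      · obtain ⟨⟨k1, k2, -⟩, k3, -⟩ := h''
        rcases hn _ k1 with k | k
        · exact absurd ⟨rfl, k⟩ k3
        · exact absurd ⟨rfl, k⟩ k2
    · rw [← comap_dele G w y]
      exact comap_le_contract (dele G w y) w x
  rw [e1] at h1
  rw [e2] at h2
  rw [comap_dele, comap_dele] at h3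
  linear_combination h3 - h2 - h1

/-- the sign of the chromatic polynomial -/
theorem tt_sign (q : ℝ) (h1 : 1 < q) (h2 : q < 2) : ∀ (n : ℕ) (V : Type) [Finite V]
    (G : SimpleGraph V), TT n V G → 0 < (-1) ^ n * (chr G).eval q := by
  classical
  intro n
  induction n with
  | zero =>
    rintro V _ G ⟨hc, hG⟩
    obtain ⟨x, y, hxy, hu⟩ := (Nat.card_eq_two_iff.1 hc)
    have hV : ∀ z : V, z = x ∨ z = y := by
      intro z
      have : z ∈ ({x, y} : Set V) := by rw [hu]; exact Set.mem_univ _
      simpa using this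
    have hadj := hG x y hxy
    -- `P = X (X - 1)`
    have k1 := chr_dele G x y hadj
    have k2 := chr_isolated (dele G x y) x (by
      rintro z ⟨h, h', -⟩
      rcases hV z with rfl | rfl
      · exact h.ne rfl
      · exact h' ⟨rfl, rfl⟩)
    have e1 : contract (dele G x y) y x = G.comap (Subtype.val : {u : V // u ≠ x} → V) := by
      apply le_antisymm _ (comap_le_contract G x y)
      intro a b hab
      have ha := (hV a.1).resolve_left a.2
      have hb := (hV b.1).resolve_left b.2
      exact absurd (Subtype.ext (ha.trans hb.symm)) hab.ne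
    rw [comap_dele] at k2
    rw [e1] at k1
    have k3 := chr_isolated (G.comap (Subtype.val : {u : V // u ≠ x} → V)) ⟨y, hxy.symm⟩ (by
      intro z hz
      have hz' := (hV z.1).resolve_left z.2
      exact hz.ne (Subtype.ext hz'.symm))
    have k4 : chr ((G.comap (Subtype.val : {u : V // u ≠ x} → V)).comap
        (Subtype.val : {u : {u : V // u ≠ x} // u ≠ ⟨y, hxy.symm⟩} → {u : V // u ≠ x})) = 1 := by
      have : IsEmpty {u : {u : V // u ≠ x} // u ≠ ⟨y, hxy.symm⟩} := by
        refine ⟨fun u => u.2 (Subtype.ext ((hV u.1.1).resolve_left u.1.2))⟩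
      refine (eq_chr (p := 1) ?_).symm
      intro k
      rw [card_colorings]
      simp only [eval_one]
      have : Nat.card {g : {u : {u : V // u ≠ x} // u ≠ ⟨y, hxy.symm⟩} → Fin k //
          Proper ((G.comap (Subtype.val : {u : V // u ≠ x} → V)).comap
        (Subtype.val : {u : {u : V // u ≠ x} // u ≠ ⟨y, hxy.symm⟩} → {u : V // u ≠ x})) g} = 1 := by
        rw [Nat.card_eq_one_iff_unique]
        refine ⟨⟨fun a b => Subtype.ext (funext fun u => isEmptyElim u)⟩,
          ⟨⟨fun u => isEmptyElim u, fun a => isEmptyElim a⟩⟩⟩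
      rw [this]
      norm_num
    rw [k4, mul_one] at k3
    rw [k3] at k1 k2
    have k5 : chr G = X * X - X := by linear_combination k2 - k1
    rw [k5]
    simp only [eval_sub, eval_mul, eval_X, pow_zero, one_mul]
    nlinarith
  | succ n ih =>
    intro V _ G hT
    obtain ⟨w, x, y, hxy, hwx, hwy, hT⟩ := hT
    obtain ⟨m, hm⟩ : ∃ m, m = {z | G.Adj w z ∧ z ≠ x ∧ z ≠ y}.ncard := ⟨_, rfl⟩
    induction m using Nat.strong_induction_on generalizing G with
    | _ m ihm =>
    by_cases hz : ∃ z, G.Adj w z ∧ z ≠ x ∧ z ≠ y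
    · obtain ⟨z, hwz, hzx, hzy⟩ := hz
      have k1 := chr_dele G w z hwz
      have k2 : 0 < (-1) ^ n * (chr (contract (dele G w z) z w)).eval q :=
        ih _ _ (tt_mono _ _ _ _ (comap_le_contract G w z) hT)
      have hlt : {t | (dele G w z).Adj w t ∧ t ≠ x ∧ t ≠ y}.ncard < m := by
        rw [hm]
        apply Set.ncard_lt_ncard _ (Set.toFinite _)
        refine ⟨fun t ht => ⟨ht.1.1, ht.2⟩, fun h => ?_⟩
        have h3 := h (show z ∈ {z | G.Adj w z ∧ z ≠ x ∧ z ≠ y} from ⟨hwz, hzx, hzy⟩)
        exact h3.1.2.1 ⟨rfl, rfl⟩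
      have k3 : 0 < (-1) ^ (n + 1) * (chr (dele G w z)).eval q := by
        refine ihm _ hlt (dele G w z) ?_ ?_ ?_ ?_ rfl
        · refine ⟨hxy, ?_, ?_⟩
          · rintro ⟨h, -⟩
            exact hwx.ne h.symm
          · rintro ⟨-, h⟩
            exact hwy.ne h.symm
        · refine ⟨hwx, ?_, ?_⟩
          · rintro ⟨-, h⟩
            exact hzx h.symm
          · rintro ⟨-, h⟩
            exact hwx.ne h.symm
        · refine ⟨hwy, ?_, ?_⟩
          · rintro ⟨-, h⟩
            exact hzy h.symm
          · rintro ⟨-, h⟩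
            exact hwy.ne h.symm
        · rw [comap_dele]
          exact hT
      have k4 := congrArg (Polynomial.eval q) k1
      rw [eval_add] at k4
      have k5 : (-1 : ℝ) ^ (n + 1) * (chr G).eval q =
          (-1) ^ (n + 1) * (chr (dele G w z)).eval q +
            (-1) ^ n * (chr (contract (dele G w z) z w)).eval q := by
        rw [k4, pow_succ]
        ring
      rw [k5]
      linarith
    · push Not at hz
      have k1 := chr_two G w x y hxy hwx hwy (by
        intro z hz'
        by_cases h : z = x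
        · exact Or.inl h
        · exact Or.inr (hz z hz' h))
      have k2 := ih _ _ hT
      rw [k1, eval_mul, eval_sub, eval_X, eval_ofNat, pow_succ]
      have k3 : 0 < (2 - q) * ((-1) ^ n * eval q (chr (SimpleGraph.comap
        (Subtype.val : {u : V // u ≠ w} → V) G))) := mul_pos (by linarith) k2
      linarith [k3]

theorem ds_tt {V : Type} [DecidableEq V] (G : SimpleGraph V) (U : Finset V) (h : DS G U) :
    ∃ n, TT n {u : V // u ∈ U} (G.comap Subtype.val) := by
  induction h with
  | base x y h =>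
    refine ⟨0, ?_, ?_⟩
    · rw [Nat.card_eq_fintype_card, Fintype.card_coe, Finset.card_pair h.ne]
    · rintro ⟨a, ha⟩ ⟨b, hb⟩ hab
      rw [Finset.mem_insert, Finset.mem_singleton] at ha hb
      change G.Adj a b
      have hab' : a ≠ b := fun h => hab (Subtype.ext h)
      rcases ha with rfl | rfl <;> rcases hb with rfl | rfl
      · exact absurd rfl hab'
      · exact h
      · exact h.symm
      · exact absurd rfl hab'
  | step U w x y hU hw hx hy hxy hwx hwy ih =>
    obtain ⟨n, hn⟩ := ih
    refine ⟨n + 1, ⟨w, Finset.mem_insert_self _ _⟩, ⟨x, Finset.mem_insert_of_mem hx⟩,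
      ⟨y, Finset.mem_insert_of_mem hy⟩, hxy, hwx, hwy, ?_⟩
    let e : {u : V // u ∈ U} ≃
        {u : {u : V // u ∈ insert w U} // u ≠ ⟨w, Finset.mem_insert_self _ _⟩} :=
      { toFun := fun u => ⟨⟨u.1, Finset.mem_insert_of_mem u.2⟩,
          fun h => hw (by
            have h1 : u.1 = w := congrArg Subtype.val h
            rw [← h1]
            exact u.2)⟩
        invFun := fun u => ⟨u.1.1, (Finset.mem_insert.1 u.1.2).resolve_left
          (fun h => u.2 (Subtype.ext h))⟩
        left_inv := fun u => rfl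
        right_inv := fun u => rfl }
    exact tt_iso n _ _ _ _ e (fun a b hab => hab) hn

end DDaux

open DDaux

theorem t_DD : S_DD := by
  intro V _ _ G h q h1 h2 h0
  obtain ⟨n, hn⟩ := ds_tt G Finset.univ h
  have h3 : TT n V G := tt_iso n _ _ _ _
    (Equiv.subtypeUnivEquiv (fun x => Finset.mem_univ x)) (fun a b hab => hab) hn
  have h4 := tt_sign q h1 h2 n V G h3
  rw [h0, mul_zero] at h4
  exact lt_irrefl _ h4

end Pool.Agent.TR80
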