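import Pool.Agent.TR80.Stm
set_option autoImplicit false

/-!
TR80-GL (helper23): chromatic polynomials of disjoint unions and of graphs glued at a vertex.
-/

namespace Pool.Agent.TR80

open Polynomial Pool.Agent.H207R2.BL

theorem t_GL0 : S_GL0 := by
  intro V _ G A hA
  classical
  refine (eq_chr (p := chr (G.induce A) * chr (G.induce Aᶜ)) ?_).symm
  intro k
  rw [Polynomial.eval_mul, chr_spec _ k, chr_spec _ k, card_colorings, card_colorings,
    card_colorings]
  have h1 : Nat.card {g : V → Fin k // Proper G g} =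
      Nat.card ({g : A → Fin k // Proper (G.induce A) g} ×
        {g : (Aᶜ : Set V) → Fin k // Proper (G.induce Aᶜ) g}) := by
    apply Nat.card_congr
    refine
      { toFun := fun g => (⟨fun x => g.1 x.1, fun a b h => g.2 _ _ h⟩,
          ⟨fun x => g.1 x.1, fun a b h => g.2 _ _ h⟩)
        invFun := fun g => ⟨fun x => if hx : x ∈ A then g.1.1 ⟨x, hx⟩ else g.2.1 ⟨x, hx⟩, ?_⟩
        left_inv := ?_
        right_inv := ?_ }
    · intro a b hab
      by_cases ha : a ∈ A
      · by_cases hb : b ∈ A
        · simp only [dif_pos ha, dif_pos hb]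
          exact g.1.2 ⟨a, ha⟩ ⟨b, hb⟩ hab
        · exact absurd hab (hA a ha b hb)
      · by_cases hb : b ∈ A
        · exact absurd hab.symm (hA b hb a ha)
        · simp only [dif_neg ha, dif_neg hb]
          exact g.2.2 ⟨a, ha⟩ ⟨b, hb⟩ hab
    · intro g
      apply Subtype.ext
      funext x
      by_cases hx : x ∈ A
      · simp [hx]
      · simp [hx]
    · rintro ⟨g, g'⟩
      apply Prod.ext
      · apply Subtype.ext
        funext x
        simp [x.2]
      · apply Subtype.ext
        funext x
        have hx : (x : V) ∉ A := x.2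
        simp [hx]
  rw [h1, Nat.card_prod]
  push_cast
  rfl

theorem t_GL1 : S_GL1 := by
  intro V _ G w A hw hA
  classical
  have hinj : ∀ p q : ℝ[X], (∀ k : ℕ, p.eval (k : ℝ) = q.eval (k : ℝ)) → p = q := by
    intro p q h
    apply Polynomial.eq_of_infinite_eval_eq
    apply Set.infinite_of_injective_forall_mem (f := fun k : ℕ => (k : ℝ)) Nat.cast_injective
    intro k
    exact h k
  apply hinj
  intro k
  rw [Polynomial.eval_mul, Polynomial.eval_X, Polynomial.eval_mul, chr_spec _ k, chr_spec _ k,
    chr_spec _ k, card_colorings, card_colorings, card_colorings]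
  have hwA : w ∈ insert w A := Set.mem_insert _ _
  have hwc : w ∈ (Aᶜ : Set V) := hw
  have h1 : Nat.card (Fin k × {g : V → Fin k // Proper G g}) =
      Nat.card ({g : ↥(insert w A) → Fin k // Proper (G.induce (insert w A)) g} ×
        {g : (Aᶜ : Set V) → Fin k // Proper (G.induce Aᶜ) g}) := by
    apply Nat.card_congr
    refine
      { toFun := fun g => (⟨fun x => Equiv.swap g.1 (g.2.1 w) (g.2.1 x.1), fun a b h => ?_⟩,
          ⟨fun x => g.2.1 x.1, fun a b h => g.2.2 _ _ h⟩)
        invFun := fun g => (g.1.1 ⟨w, hwA⟩, ⟨fun x => if hx : x ∈ A then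
          Equiv.swap (g.1.1 ⟨w, hwA⟩) (g.2.1 ⟨w, hwc⟩) (g.1.1 ⟨x, Set.mem_insert_of_mem w hx⟩)
            else g.2.1 ⟨x, hx⟩, ?_⟩)
        left_inv := ?_
        right_inv := ?_ }
    · intro h'
      exact g.2.2 _ _ h ((Equiv.swap g.1 (g.2.1 w)).injective h')
    · have key : ∀ x (hx : x ∈ A) (y) (hy : y ∉ A), G.Adj x y →
          Equiv.swap (g.1.1 ⟨w, hwA⟩) (g.2.1 ⟨w, hwc⟩) (g.1.1 ⟨x, Set.mem_insert_of_mem w hx⟩) ≠
            g.2.1 ⟨y, hy⟩ := by
        intro x hx y hy hxy
        have hyw : y = w := by
          by_contra hne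
          exact hA x hx y hy hne hxy
        subst hyw
        intro h'
        have h2 := congrArg (Equiv.swap (g.1.1 ⟨y, hwA⟩) (g.2.1 ⟨y, hwc⟩)) h'
        rw [Equiv.swap_apply_self, Equiv.swap_apply_right] at h2
        exact g.1.2 ⟨x, Set.mem_insert_of_mem y hx⟩ ⟨y, hwA⟩ hxy h2
      intro a b hab
      by_cases ha : a ∈ A
      · by_cases hb : b ∈ A
        · simp only [dif_pos ha, dif_pos hb]
          intro h'
          exact g.1.2 ⟨a, Set.mem_insert_of_mem w ha⟩ ⟨b, Set.mem_insert_of_mem w hb⟩ hab
            ((Equiv.swap _ _).injective h')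
        · simp only [dif_pos ha, dif_neg hb]
          exact key a ha b hb hab
      · by_cases hb : b ∈ A
        · simp only [dif_neg ha, dif_pos hb]
          exact (key b hb a ha hab.symm).symm
        · simp only [dif_neg ha, dif_neg hb]
          exact g.2.2 ⟨a, ha⟩ ⟨b, hb⟩ hab
    · rintro ⟨c, g⟩
      apply Prod.ext
      · simp
      · apply Subtype.ext
        funext x
        by_cases hx : x ∈ A
        · simp [hx]
        · simp [hx]
    · rintro ⟨g, g'⟩
      apply Prod.ext
      · apply Subtype.ext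
        funext x
        obtain ⟨x, hx⟩ := x
        rcases hx with rfl | hx
        · simp [hw]
        · simp [hx, hw]
      · apply Subtype.ext
        funext x
        have hx : (x : V) ∉ A := x.2
        simp [hx]
  rw [← Nat.cast_mul, ← Nat.cast_mul, ← Nat.card_prod, ← h1, Nat.card_prod, Nat.card_fin]

end Pool.Agent.TR80
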