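import Pool.Agent.TR80.Stm

set_option autoImplicit false

namespace Pool.Agent.TR80

open Polynomial Pool.Agent.H207R2.BL Pool.Agent.Y865.RF Pool.Agent.Y655.RF
open Pool.Agent.H257R2.Tutte

theorem chr_empty {V : Type} [Finite V] [IsEmpty V] (G : SimpleGraph V) : chr G = 1 := by
  refine (eq_chr (p := (1 : ℝ[X])) ?_).symm
  intro k
  rw [card_colorings]
  have : Nat.card {g : V → Fin k // Proper G g} = 1 := by
    rw [Nat.card_eq_one_iff_unique]
    refine ⟨⟨fun a b => Subtype.ext (funext fun x => (IsEmpty.false x).elim)⟩,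
      ⟨fun x => (IsEmpty.false x).elim, fun a => (IsEmpty.false a).elim⟩⟩
  rw [this]
  simp

theorem chr_one {V : Type} [Finite V] (G : SimpleGraph V) (v : V) (hv : ∀ x : V, x = v) :
    chr G = X := by
  rw [chr_isolated G v (fun x h => h.ne (hv x).symm)]
  have : IsEmpty {x : V // x ≠ v} := ⟨fun x => x.2 (hv x.1)⟩
  rw [chr_empty, mul_one]

theorem chr_two {V : Type} [Finite V] (G : SimpleGraph V) (u v : V) (huv : G.Adj u v)
    (hV : ∀ x : V, x = u ∨ x = v) : chr G = X * (X - 1) := by
  have h := del_con G ⊥ u v huv.ne (by simp) (by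
    intro x y
    constructor
    · intro hxy
      right
      rcases hV x with rfl | rfl <;> rcases hV y with rfl | rfl
      · exact absurd rfl hxy.ne
      · exact Or.inl ⟨rfl, rfl⟩
      · exact Or.inr ⟨rfl, rfl⟩
      · exact absurd rfl hxy.ne
    · rintro (h | ⟨rfl, rfl⟩ | ⟨rfl, rfl⟩)
      · exact absurd h (by simp)
      · exact huv
      · exact huv.symm)
  have h1 : chr (contract (⊥ : SimpleGraph V) u v) = X := by
    refine chr_one _ ⟨u, huv.ne⟩ ?_
    intro x
    apply Subtype.ext
    rcases hV x.1 with h | h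
    · exact h
    · exact absurd h x.2
  have h2 : chr (⊥ : SimpleGraph V) = X * X := by
    rw [chr_isolated (⊥ : SimpleGraph V) v (by simp)]
    congr 1
    refine chr_one _ ⟨u, huv.ne⟩ ?_
    intro x
    apply Subtype.ext
    rcases hV x.1 with h | h
    · exact h
    · exact absurd h x.2
  rw [h1, h2] at h
  linear_combination -h

theorem ja (hJ : S_JA1) (h0 : S_GL0) (h1 : S_GL1) : S_JA := by
  classical
  have key : ∀ (n : ℕ) (V : Type) [Finite V] (G : SimpleGraph V) (q : ℝ), Nat.card V = n →
      ((0 < q ∧ q < 1) ∨ (1 < q ∧ q < 32 / 27)) → (chr G).eval q ≠ 0 := by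
    intro n
    induction n using Nat.strong_induction_on with
    | _ n ih =>
    intro V _ G q hn hq
    have : Fintype V := Fintype.ofFinite V
    have hq0 : q ≠ 0 := by
      rcases hq with h | h
      · exact h.1.ne'
      · exact (by linarith [h.1] : (0:ℝ) < q).ne'
    have hq1 : q ≠ 1 := by
      rcases hq with h | h
      · exact h.2.ne
      · exact h.1.ne'
    have hsub : ∀ (A : Set V) (z : V), z ∉ A → Nat.card A < n := by
      intro A z hz
      rw [← hn]
      have h3 : A.ncard < (Set.univ : Set V).ncard :=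
        Set.ncard_lt_ncard ((Set.ssubset_univ_iff).2 (fun h => hz (h ▸ Set.mem_univ z)))
          (Set.toFinite _)
      rwa [Set.ncard_univ] at h3
    rcases isEmpty_or_nonempty V with he | ⟨⟨x0⟩⟩
    · rw [chr_empty]
      simp
    by_cases hconn : ∀ x y : V, G.Reachable x y
    swap
    · push Not at hconn
      obtain ⟨x, y, hxy⟩ := hconn
      have h3 := h0 V G {z | G.Reachable x z} (by
        intro a ha b hb hab
        exact hb (SimpleGraph.Reachable.trans ha hab.reachable))
      have h4 := ih _ (hsub {z | G.Reachable x z} y hxy) _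
        (G.induce {z | G.Reachable x z}) q rfl hq
      have h5 := ih _ (hsub {z | G.Reachable x z}ᶜ x (by simp)) _
        (G.induce {z | G.Reachable x z}ᶜ) q rfl hq
      rw [h3, eval_mul]
      exact mul_ne_zero h4 h5
    by_cases hcut : ∀ w x y : V, x ≠ w → y ≠ w →
      Relation.ReflTransGen (fun a b => a ≠ w ∧ b ≠ w ∧ G.Adj a b) x y
    swap
    · push Not at hcut
      obtain ⟨w, x, y, hx, hy, hxy⟩ := hcut
      set A : Set V := {z | Relation.ReflTransGen (fun a b => a ≠ w ∧ b ≠ w ∧ G.Adj a b) x z}
        with hA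
      have hwA : w ∉ A := by
        intro h
        rcases Relation.ReflTransGen.cases_tail h with h | ⟨c, _, h⟩
        · exact hx h.symm
        · exact h.2.1 rfl
      have h3 := h1 V G w A hwA (by
        intro a ha b hb hbw hab
        apply hb
        have haw : a ≠ w := fun h => hwA (h ▸ ha)
        exact Relation.ReflTransGen.tail ha ⟨haw, hbw, hab⟩)
      have h4 := ih _ (hsub (insert w A) y (by
        rintro (h | h)
        · exact hy h
        · exact hxy h)) _ (G.induce (insert w A)) q rfl hq
      have h5 := ih _ (hsub Aᶜ x (by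
        intro h
        exact h Relation.ReflTransGen.refl)) _ (G.induce Aᶜ) q rfl hq
      intro hz
      have h6 := congrArg (Polynomial.eval q) h3
      rw [eval_mul, eval_mul, hz, mul_zero] at h6
      exact mul_ne_zero h4 h5 h6.symm
    -- few vertices
    by_cases hV1 : ∀ x : V, x = x0
    · rw [chr_one G x0 hV1, eval_X]
      exact hq0
    push Not at hV1
    obtain ⟨x1, hx1⟩ := hV1
    have : Nonempty V := ⟨x0⟩
    have hnon : G.Connected := ⟨hconn⟩
    by_cases hV2 : ∀ x : V, x = x0 ∨ x = x1
    · have hadj : G.Adj x0 x1 := by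
        obtain ⟨w⟩ := hconn x0 x1
        cases w with
        | nil => exact absurd rfl hx1
        | @cons _ b _ h p =>
          rcases hV2 b with rfl | rfl
          · exact absurd rfl h.ne
          · exact h
      rw [chr_two G x0 x1 hadj hV2, eval_mul, eval_sub, eval_X, eval_one]
      exact mul_ne_zero hq0 (sub_ne_zero.2 hq1)
    push Not at hV2
    obtain ⟨x2, hx20, hx21⟩ := hV2
    have hcard : 3 ≤ Nat.card V := by
      have h3 : ({x0, x1, x2} : Finset V).card = 3 := by
        rw [Finset.card_insert_of_notMem (by simp [Ne.symm hx1, Ne.symm hx20]),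
          Finset.card_insert_of_notMem (by simp [Ne.symm hx21]), Finset.card_singleton]
      rw [Nat.card_eq_fintype_card, ← h3]
      exact Finset.card_le_univ _
    have hedge : Nat.card V ≤ Nat.card G.edgeSet + 1 := hnon.card_vert_le_card_edgeSet_add_one
    have hfe : Fintype G.edgeSet := Fintype.ofFinite _
    refine hJ V G q hq ?_
    have hends : ∀ a b : V, G.Adj a b → ∃ e : G.edgeSet, (e : Sym2 V) = s(a, b) :=
      fun a b h => ⟨⟨s(a, b), (SimpleGraph.mem_edgeSet G).2 h⟩, rfl⟩
    refine ⟨?_, ?_, ?_, ?_⟩
    · intro e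
      exact SimpleGraph.not_isDiag_of_mem_edgeSet G e.2
    · intro x y
      obtain ⟨w⟩ := hconn x y
      induction w with
      | nil => exact Relation.ReflTransGen.refl
      | @cons a b c h p ihp => exact Relation.ReflTransGen.head (hends a b h) ihp
    · intro w x y hx hy
      have h6 := hcut w x y hx hy
      induction h6 with
      | refl => exact Relation.ReflTransGen.refl
      | @tail b c _ h7 ihp =>
        exact Relation.ReflTransGen.tail (ihp h7.1) ⟨h7.1, h7.2.1, hends _ _ h7.2.2⟩
    · rw [← Nat.card_eq_fintype_card]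
      omega
  intro V _ G q hq
  exact key _ V G q rfl hq

end Pool.Agent.TR80
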