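import Pool.Agent.TR80.Stm

/-!
# Jackson's theorem for 2-connected graphs (project TR80, piece JA1)
-/

set_option autoImplicit false

namespace Pool.Agent.TR80

open Polynomial Pool.Agent.H207R2.BL Pool.Agent.H257R2.Tutte

namespace JA1P

/-- `exists_small` with one more conclusion -/
theorem exists_small' {q : ℝ} (hq : (0 < q ∧ q < 1) ∨ (1 < q ∧ q < 32 / 27)) :
    ∃ a, a < 0 ∧ 0 < dl q a ∧ AllGood q a (dl q a) 2 := by
  rcases hq with ⟨hq0, hq1⟩ | ⟨hq1, hq2⟩
  · -- a = -(1 - q) / 3
    set c := (1 - q) / 3 with hc
    have c0 : 0 < c := by linarith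
    have c1 : c < 1 / 3 := by linarith
    have hqc : q = 1 - 3 * c := by linarith
    have hb : dl q (-c) = 4 * c / (1 + c) := by
      unfold dl
      have : 1 + c ≠ 0 := by positivity
      have e1 : 1 - -c = 1 + c := by ring
      rw [e1, hqc]
      field_simp
      ring
    have hbc : 0 < 1 + c := by linarith
    have hb0 : 0 < 4 * c / (1 + c) := by positivity
    have hb1 : 4 * c / (1 + c) < 1 := by
      rw [div_lt_one hbc]
      linarith
    refine ⟨-c, by linarith, by rw [hb]; linarith, ?_⟩
    have hBase : Base q (-c) (dl q (-c)) (max (dl q (-c)) (1 / 2)) :=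
      { q0 := hq0
        q1 := hq1.ne
        a1 := by linarith
        a0 := by
          rw [lt_min_iff]
          constructor <;> linarith
        hb := rfl
        ab := by
          rw [hb, le_div_iff₀ hbc]
          nlinarith
        k0 := le_max_right _ _
        k1 := by
          rw [max_lt_iff, hb]
          exact ⟨hb1, by norm_num⟩
        kb := le_max_left _ _ }
    apply allGood_small hBase
    · intro _
      constructor
      · nlinarith
      · rw [hb, div_pow, div_lt_iff₀ (by positivity)]
        have h5 : 1 - q = 3 * c := by linarith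
        rw [h5]
        have h6 : 0 < c * (3 - c) * (1 - 3 * c) := by
          have : 0 < 3 - c := by linarith
          have : 0 < 1 - 3 * c := by linarith
          positivity
        nlinarith
    · intro h5
      linarith
  · -- a = - min (2 (q - 1)) (1 / 3)
    set p := q - 1 with hp
    have p0 : 0 < p := by linarith
    have p1 : p < 5 / 27 := by linarith
    obtain ⟨c, hc0, hc1, hc2, hc3, hc4⟩ : ∃ c : ℝ, 0 < c ∧ c ≤ 1 / 3 ∧ p < c ∧
        p ≤ c - c ^ 2 - c ^ 3 ∧ c ^ 2 < p * (1 + 2 * c) := by
      rcases lt_or_ge p (1 / 6) with h | h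
      · refine ⟨2 * p, by linarith, by linarith, by linarith, ?_, ?_⟩
        · nlinarith [mul_pos p0 p0]
        · nlinarith [mul_pos p0 p0]
      · refine ⟨1 / 3, by norm_num, le_rfl, by linarith, by norm_num; linarith, ?_⟩
        nlinarith
    have hqp : q = 1 + p := by linarith
    have hbc : 0 < 1 + c := by linarith
    have hb : dl q (-c) = (c - p) / (1 + c) := by
      unfold dl
      have : 1 + c ≠ 0 := hbc.ne'
      have e1 : 1 - -c = 1 + c := by ring
      rw [e1, hqp]
      field_simp
      ring
    have hb0 : 0 < (c - p) / (1 + c) := div_pos (by linarith) hbc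
    have hb1 : (c - p) / (1 + c) < 1 := by
      rw [div_lt_one hbc]
      linarith
    refine ⟨-c, by linarith, by rw [hb]; linarith, ?_⟩
    have hBase : Base q (-c) (dl q (-c)) (max (dl q (-c)) (1 / 2)) :=
      { q0 := by linarith
        q1 := by linarith
        a1 := by linarith
        a0 := by
          rw [lt_min_iff]
          constructor <;> linarith
        hb := rfl
        ab := by
          rw [hb, le_div_iff₀ hbc]
          nlinarith
        k0 := le_max_right _ _
        k1 := by
          rw [max_lt_iff, hb]
          exact ⟨hb1, by norm_num⟩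
        kb := le_max_left _ _ }
    apply allGood_small hBase
    · intro h5
      linarith
    · intro _
      rw [hb]
      have h6 : 1 - q = -p := by linarith
      rw [h6, ← mul_div_assoc, lt_div_iff₀ hbc]
      nlinarith

/-- the expansion of the chromatic polynomial over sets of edges -/
theorem chr_eq_sum {V : Type} [Fintype V] (G : SimpleGraph V) [DecidableEq V]
    [DecidableRel G.Adj] :
    chr G = ∑ A ∈ G.edgeFinset.powerset, C ((-1 : ℝ) ^ A.card) *
      X ^ (Nat.card (Quotient (comp A))) := by
  classical
  refine (eq_chr ?_).symm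
  intro k
  rw [card_coloring]
  simp_rw [pr_expand]
  rw [Finset.sum_comm]
  simp only [Polynomial.eval_finsetSum, Polynomial.eval_mul, Polynomial.eval_C,
    Polynomial.eval_pow, Polynomial.eval_X]
  refine Finset.sum_congr rfl (fun A _ => ?_)
  have h1 := sum_ind k (comp A) (comp A)
  rw [sup_idem] at h1
  rw [← Finset.mul_sum]
  have h2 : ∑ g : V → Fin k, ind (comp A) g = ∑ g : V → Fin k, ind (comp A) g * ind (comp A) g := by
    refine Finset.sum_congr rfl (fun g _ => ?_)
    unfold ind
    split_ifs <;> simp
  rw [h2, h1]

/-- the numbers of components agree -/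
theorem numComp_eq {V : Type} (G : SimpleGraph V) (A : Finset G.edgeSet) :
    numComp (fun e : G.edgeSet => (e : Sym2 V)) A =
      Nat.card (Quotient (comp (A.map (Function.Embedding.subtype _)))) := by
  classical
  unfold numComp
  set A' := A.map (Function.Embedding.subtype (· ∈ G.edgeSet)) with hA'
  have hmem : ∀ x y : V, JoinedBy (fun e : G.edgeSet => (e : Sym2 V)) A x y ↔ s(x, y) ∈ A' := by
    intro x y
    constructor
    · rintro ⟨e, he, h⟩
      rw [hA', Finset.mem_map]
      exact ⟨e, he, h⟩
    · intro h
      rw [hA', Finset.mem_map] at h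
      obtain ⟨e, he, h⟩ := h
      exact ⟨e, he, h⟩
  refine Nat.card_congr
    { toFun := Quot.lift (fun x => Quotient.mk (comp A') x) ?_
      invFun := Quotient.lift (fun x => Quot.mk _ x) ?_
      left_inv := ?_
      right_inv := ?_ }
  · intro a b hab
    exact (comp_le A' (Quotient.mk (comp A'))).1 (fun x y h => Quotient.sound h) a b
      ((hmem a b).1 hab)
  · intro a b hab
    have h1 := (comp_le A' (Quot.mk (JoinedBy (fun e : G.edgeSet => (e : Sym2 V)) A))).2
      (fun x y h => Quot.sound ((hmem x y).2 h))
    exact h1 hab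
  · rintro ⟨x⟩
    rfl
  · intro x
    induction x using Quotient.inductionOn with
    | _ x => rfl

theorem eval_eq {V : Type} [Fintype V] (G : SimpleGraph V) [inst : Fintype G.edgeSet] (q : ℝ) :
    (chr G).eval q = tutteZ (fun e : G.edgeSet => (e : Sym2 V)) q (fun _ => -1) := by
  classical
  obtain rfl : inst = G.fintypeEdgeSet := Subsingleton.elim _ _
  rw [chr_eq_sum]
  unfold tutteZ
  rw [Polynomial.eval_finsetSum]
  symm
  apply Finset.sum_nbij' (i := fun A : Finset G.edgeSet => A.map (Function.Embedding.subtype _))
    (j := fun B => B.subtype (· ∈ G.edgeSet))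
  · intro A _
    rw [Finset.mem_powerset]
    intro e he
    rw [Finset.mem_map] at he
    obtain ⟨e', -, rfl⟩ := he
    rw [SimpleGraph.mem_edgeFinset]
    exact e'.2
  · intro B _
    exact Finset.mem_univ _
  · intro A _
    ext e
    simp
  · intro B hB
    ext e
    rw [Finset.mem_powerset] at hB
    rw [Finset.subtype_map, Finset.mem_filter]
    constructor
    · exact fun h => h.1
    · exact fun h => ⟨h, SimpleGraph.mem_edgeFinset.1 (hB h)⟩
  · intro A _
    rw [numComp_eq, Finset.prod_const, Finset.card_map]
    simp [mul_comm]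

end JA1P

open JA1P in
theorem t_JA1 : S_JA1 := by
  intro V _ G q hq _ hG
  obtain ⟨a, ha, hb, hgood⟩ := exists_small' hq
  have hq0 : 0 < q := by
    rcases hq with h | h
    · exact h.1
    · linarith [h.1]
  have hq1 : q ≠ 1 := by
    rcases hq with h | h
    · exact h.2.ne
    · exact h.1.ne'
  have h := sign_of_allGood hq0 hq1 hgood (fun e : G.edgeSet => (e : Sym2 V)) (fun _ => -1) hG
    hG.twoEdges (fun e => ⟨by linarith, by linarith⟩)
  rw [← eval_eq] at h
  intro h0
  rw [h0, mul_zero] at h
  exact lt_irrefl _ h

end Pool.Agent.TR80
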