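import Pool.Agent.TR80.Stm

/-!
# Project TR80 (helper80), piece K5
-/

set_option autoImplicit false

namespace Pool.Agent.TR80

open Pool.Agent.Y865.RF Pool.Agent.Y655.RF

lemma k5_cn_symm {V : Type} {G : SimpleGraph V} {A : Set V} {u v : V} (h : Cn G A u v) :
    Cn G A v u := by
  obtain ⟨p, hp⟩ := h
  refine ⟨p.reverse, ?_⟩
  intro z hz
  rw [SimpleGraph.Walk.support_reverse, List.mem_reverse] at hz
  exact hp z hz

lemma k5_cn_sub {V : Type} {G : SimpleGraph V} {A B : Set V} {u v : V} (hAB : A ⊆ B)
    (h : Cn G A u v) : Cn G B u v := by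
  obtain ⟨p, hp⟩ := h
  exact ⟨p, fun z hz => hAB (hp z hz)⟩

/-- The sets of the weak `K₅`. -/
def k5A {V : Type} (s b x y z : V) (D Q : Set V) : Fin 5 → Fin 5 → Set V :=
  ![![∅, D \ {z}, D \ {y}, {s, x}, insert x Q],
    ![∅, ∅, D \ {x}, {s, y}, insert y Q],
    ![∅, ∅, ∅, {s, z}, insert z Q],
    ![∅, ∅, ∅, ∅, {s, b}],
    ![∅, ∅, ∅, ∅, ∅]]

theorem t_K5 : S_K5 := by
  intro V _ _ S G s D Q b hs hDS hQS hsD hcyc hsQ hDQ hQ hbQ hsb x hx y hy z hz hxy hxz hyz
    hxQ hyQ hzQ
  have hsx : s ≠ x := (hsD x hx).ne
  have hsy : s ≠ y := (hsD y hy).ne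
  have hsz : s ≠ z := (hsD z hz).ne
  have hsnD : s ∉ D := fun h => (hsD s h).ne rfl
  have hbD : b ∉ D := fun h => hDQ b h hbQ
  have hbx : b ≠ x := fun h => hbD (h ▸ hx)
  have hby : b ≠ y := fun h => hbD (h ▸ hy)
  have hbz : b ≠ z := fun h => hbD (h ▸ hz)
  have hxnQ := hDQ x hx
  have hynQ := hDQ y hy
  have hznQ := hDQ z hz
  have hQb : ∀ d, (∃ u ∈ Q, G.Adj d u) → Cn G (insert d Q) d b := by
    rintro d ⟨u, hu, hdu⟩
    exact cn_trans (cn_edge hdu (Set.mem_insert _ _) (Set.mem_insert_of_mem _ hu))
      (k5_cn_sub (Set.subset_insert _ _) (hQ u hu b hbQ))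
  have hsd : ∀ d, G.Adj s d → Cn G ({s, d} : Set V) d s := fun d h =>
    cn_edge h.symm (Or.inr rfl) (Or.inl rfl)
  have hsb' : Cn G ({s, b} : Set V) s b := cn_edge hsb (Or.inl rfl) (Or.inr rfl)
  refine ⟨![x, y, z, s, b], k5A s b x y z D Q, ?_, ?_, ?_⟩
  · intro a c hac
    fin_cases a <;> fin_cases c <;>
      first
      | exact absurd hac (by decide)
      | exact hcyc z hz x hx y hy hxz hyz
      | exact hcyc y hy x hx z hz hxy hyz.symm
      | exact hcyc x hx y hy z hz hxy.symm hxz.symm
      | exact hsd x (hsD x hx)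
      | exact hsd y (hsD y hy)
      | exact hsd z (hsD z hz)
      | exact hQb x hxQ
      | exact hQb y hyQ
      | exact hQb z hzQ
      | exact hsb'
  · -- the disjointness of the sets
    have d1' : ∀ e, Disjoint (D \ {e}) ({s, e} : Set V) := by
      intro e
      rw [Set.disjoint_left]
      rintro t ⟨h1, h2⟩ (rfl | rfl)
      · exact hsnD h1
      · exact h2 rfl
    have d2 : ∀ e, Disjoint (D \ {e}) (insert e Q) := by
      intro e
      rw [Set.disjoint_left]
      rintro t ⟨h1, h2⟩ (rfl | h3)
      · exact h2 rfl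
      · exact hDQ t h1 h3
    have d3 : ∀ e, Disjoint (D \ {e}) ({s, b} : Set V) := by
      intro e
      rw [Set.disjoint_left]
      rintro t ⟨h1, h2⟩ (rfl | rfl)
      · exact hsnD h1
      · exact hbD h1
    have d4 : ∀ d e, s ≠ e → d ∉ Q → d ≠ e → Disjoint ({s, d} : Set V) (insert e Q) := by
      intro d e h1 h2 h3
      rw [Set.disjoint_left]
      rintro t (rfl | rfl) (h4 | h4)
      · exact h1 h4
      · exact hsQ h4
      · exact h3 h4
      · exact h2 h4
    intro a c a' c' hac hac' h1 h2 h3 h4
    fin_cases a <;> fin_cases c <;> first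
      | exact absurd hac (by decide)
      | (fin_cases a' <;> first
          | exact absurd rfl h1
          | exact absurd rfl h3
          | (fin_cases c' <;> first
              | exact absurd hac' (by decide)
              | exact absurd rfl h2
              | exact absurd rfl h4
              | exact d1' _
              | exact (d1' _).symm
              | exact d2 _
              | exact (d2 _).symm
              | exact d3 _
              | exact (d3 _).symm
              | exact d4 x y hsy hxnQ hxy
              | exact (d4 x y hsy hxnQ hxy).symm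
              | exact d4 x z hsz hxnQ hxz
              | exact (d4 x z hsz hxnQ hxz).symm
              | exact d4 y x hsx hynQ hxy.symm
              | exact (d4 y x hsx hynQ hxy.symm).symm
              | exact d4 y z hsz hynQ hyz
              | exact (d4 y z hsz hynQ hyz).symm
              | exact d4 z x hsx hznQ hxz.symm
              | exact (d4 z x hsx hznQ hxz.symm).symm
              | exact d4 z y hsy hznQ hyz.symm
              | exact (d4 z y hsy hznQ hyz.symm).symm))
  · have e1 : ∀ e : V, D \ {e} ⊆ (S : Set V) := fun e t ht => hDS ht.1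
    have e2 : ∀ e ∈ D, ({s, e} : Set V) ⊆ (S : Set V) := by
      rintro e he t (rfl | rfl)
      · exact hs
      · exact hDS he
    have e3 : ∀ e ∈ D, insert e Q ⊆ (S : Set V) := by
      rintro e he t (rfl | h)
      · exact hDS he
      · exact hQS h
    have e4 : ({s, b} : Set V) ⊆ (S : Set V) := by
      rintro t (rfl | rfl)
      · exact hs
      · exact hQS hbQ
    intro a c
    fin_cases a <;> fin_cases c <;> first
      | exact Set.empty_subset _
      | exact e1 _
      | exact e2 _ hx
      | exact e2 _ hy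
      | exact e2 _ hz
      | exact e3 _ hx
      | exact e3 _ hy
      | exact e3 _ hz
      | exact e4

end Pool.Agent.TR80
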