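import Pool.Agent.TR80.Stm

/-!
# Kronecker's theorem for `q - 3` (project TR80, piece KR)
-/

set_option autoImplicit false

namespace Pool.Agent.TR80

open Polynomial

namespace KRP

/-- a complex number with `w + w⁻¹` real in `(-2, 2)` has norm one -/
theorem norm_one {w : ℂ} {r : ℝ} (h : w * w - r * w + 1 = 0) (h1 : -2 < r) (h2 : r < 2) :
    ‖w‖ = 1 := by
  have hre := congrArg Complex.re h
  have him := congrArg Complex.im h
  simp at hre him
  have hb : w.im * (2 * w.re - r) = 0 := by linarith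
  rcases mul_eq_zero.1 hb with h3 | h3
  · exfalso
    rw [h3] at hre
    nlinarith [sq_nonneg (w.re - r / 2)]
  · have h4 : r = 2 * w.re := by linarith
    rw [h4] at hre
    have h5 : w.re * w.re + w.im * w.im = 1 := by linarith
    rw [Complex.norm_def, Complex.normSq_apply, h5, Real.sqrt_one]

theorem isIntegral_of_quad {α β : ℂ} (hβ : IsIntegral ℤ β) (h : α * α - β * α + 1 = 0) :
    IsIntegral ℤ α := by
  let A := integralClosure ℤ ℂ
  let b : A := ⟨β, hβ⟩
  have h1 : IsIntegral A α := by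
    refine ⟨X ^ 2 - C b * X + 1, ?_, ?_⟩
    · monicity!
    · simp only [eval₂_add, eval₂_sub, eval₂_mul, eval₂_pow, eval₂_X, eval₂_C, eval₂_one]
      have : algebraMap A ℂ b = β := rfl
      rw [this, pow_two]
      exact h
  exact isIntegral_trans (R := ℤ) (A := A) α h1

end KRP

open KRP in
theorem t_KR : S_KR := by
  intro q hq hroots
  set P := minpoly ℚ q with hP
  have hqP : aeval (q : ℂ) P = 0 := by
    have h1 : aeval (algebraMap ℝ ℂ q) P = algebraMap ℝ ℂ (aeval q P) :=
      aeval_algebraMap_apply ℂ q P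
    rw [minpoly.aeval, map_zero] at h1
    exact h1
  obtain ⟨-, hq1, hq5⟩ := hroots _ hqP
  simp only [Complex.ofReal_re] at hq1 hq5
  set θ := Real.arccos ((q - 3) / 2) with hθ
  have hcos : Real.cos θ = (q - 3) / 2 :=
    Real.cos_arccos (by linarith) (by linarith)
  set α : ℂ := Complex.exp (θ * Complex.I) with hα
  have hα0 : α ≠ 0 := Complex.exp_ne_zero _
  have hαs : α + α⁻¹ = ((q - 3 : ℝ) : ℂ) := by
    have h1 : α⁻¹ = Complex.exp (-(θ * Complex.I)) := by rw [hα, Complex.exp_neg]
    have h2 : Complex.cos θ = (α + α⁻¹) / 2 := by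
      rw [h1, hα, Complex.cos, neg_mul]
    have h3 : Complex.cos θ = (((q - 3) / 2 : ℝ) : ℂ) := by
      rw [← hcos, Complex.ofReal_cos]
    have h4 : (α + α⁻¹) / 2 = (((q - 3) / 2 : ℝ) : ℂ) := by rw [← h2, h3]
    push_cast at h4 ⊢
    linear_combination 2 * h4
  have hint3 : IsIntegral ℤ (((q - 3 : ℝ)) : ℂ) := by
    have h1 : IsIntegral ℤ (q - 3 : ℝ) := hq.sub (by
      have : IsIntegral ℤ ((algebraMap ℤ ℝ) 3) := isIntegral_algebraMap
      simpa using this)
    exact h1.algebraMap
  have hαint : IsIntegral ℤ α := by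
    apply isIntegral_of_quad hint3
    rw [← hαs, add_mul, inv_mul_cancel₀ hα0]
    ring
  have hαintQ : IsIntegral ℚ α := hαint.tower_top
  -- the number field
  have : FiniteDimensional ℚ (IntermediateField.adjoin ℚ {α}) :=
    IntermediateField.adjoin.finiteDimensional hαintQ
  have : NumberField (IntermediateField.adjoin ℚ {α}) := ⟨⟩
  set K := IntermediateField.adjoin ℚ {α} with hK
  let x : K := IntermediateField.AdjoinSimple.gen ℚ α
  have hx : (x : ℂ) = α := IntermediateField.AdjoinSimple.coe_gen ℚ α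
  have hx0 : x ≠ 0 := by
    intro h0
    apply hα0
    rw [← hx, h0]
    rfl
  have hxint : IsIntegral ℤ x := by
    have h1 : IsIntegral ℤ ((algebraMap K ℂ) x) := by
      change IsIntegral ℤ (x : ℂ)
      rw [hx]
      exact hαint
    exact (isIntegral_algebraMap_iff (algebraMap K ℂ).injective).1 h1
  have hval : aeval (x + x⁻¹ + 3) P = 0 := by
    apply (algebraMap K ℂ).injective
    rw [← aeval_algebraMap_apply, map_zero, map_add, map_add, map_inv₀]
    have e1 : (algebraMap K ℂ) x = α := hx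
    rw [e1, hαs]
    have e2 : (((q - 3 : ℝ)) : ℂ) + (algebraMap K ℂ) 3 = (q : ℂ) := by
      rw [map_ofNat]
      push_cast
      ring
    rw [e2]
    exact hqP
  obtain ⟨m, hm, hxm⟩ := NumberField.Embeddings.pow_eq_one_of_norm_eq_one K ℂ hxint (by
    intro φ
    have h1 : aeval (φ x + (φ x)⁻¹ + 3) P = 0 := by
      have h2 := congrArg φ hval
      rw [map_zero] at h2
      rw [← h2]
      have h3 : φ (aeval (x + x⁻¹ + 3) P) = aeval (φ (x + x⁻¹ + 3)) P := by
        have := Polynomial.map_aeval_eq_aeval_map (S := K) (T := ℚ) (U := ℂ)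
          (φ := RingHom.id ℚ) (ψ := φ) (Subsingleton.elim _ _) P (x + x⁻¹ + 3)
        rw [this, Polynomial.map_id]
      rw [h3]
      rw [map_add, map_add, map_inv₀, map_ofNat]
    obtain ⟨h4, h5, h6⟩ := hroots _ h1
    have hφ0 : φ x ≠ 0 := (map_ne_zero φ).2 hx0
    set w := φ x with hw
    set z := w + w⁻¹ + 3 with hz
    have hzr : z = (z.re : ℂ) := by
      apply Complex.ext <;> simp [h4]
    apply norm_one (r := z.re - 3) (w := w)
    · push_cast
      rw [← hzr, hz]
      field_simp
      ring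
    · linarith
    · linarith)
  have hαm : α ^ m = 1 := by
    have := congrArg (algebraMap K ℂ) hxm
    rw [map_pow, map_one] at this
    rw [← hx]
    exact this
  -- the order
  have hfo : IsOfFinOrder α := isOfFinOrder_iff_pow_eq_one.2 ⟨m, hm, hαm⟩
  set n := orderOf α with hn
  have hn0 : 0 < n := hfo.orderOf_pos
  have hprim : IsPrimitiveRoot α n := IsPrimitiveRoot.orderOf α
  obtain ⟨k, -, hkn, hk⟩ := (Complex.isPrimitiveRoot_iff α n hn0.ne').1 hprim
  have hcosj : ∀ j : ℕ, Complex.exp (2 * Real.pi * Complex.I * (j / n)) +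
      (Complex.exp (2 * Real.pi * Complex.I * (j / n)))⁻¹ =
      ((2 * Real.cos (2 * Real.pi * j / n) : ℝ) : ℂ) := by
    intro j
    have e1 : 2 * (Real.pi : ℂ) * Complex.I * (j / n) =
        ((2 * Real.pi * j / n : ℝ) : ℂ) * Complex.I := by
      push_cast
      ring
    rw [← Complex.exp_neg, e1]
    push_cast
    rw [Complex.cos, neg_mul]
    ring
  have hqk : q = 3 + 2 * Real.cos (2 * Real.pi * k / n) := by
    have h1 := hcosj k
    rw [hk, hαs] at h1
    have h2 := Complex.ofReal_injective h1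
    linarith
  refine ⟨n, ?_, k, hkn, hqk, ?_⟩
  · by_contra hlt
    have hlt : n < 3 := by omega
    interval_cases hnn : n
    · have h1 : α = 1 := IsPrimitiveRoot.one_right_iff.1 hprim
      rw [h1] at hαs
      have h2 : ((2 : ℝ) : ℂ) = ((q - 3 : ℝ) : ℂ) := by
        rw [← hαs]; push_cast; norm_num
      have := Complex.ofReal_injective h2
      linarith
    · have h1 : α = -1 := hprim.eq_neg_one_of_two_right
      rw [h1] at hαs
      have h2 : ((-2 : ℝ) : ℂ) = ((q - 3 : ℝ) : ℂ) := by
        rw [← hαs]; push_cast; norm_num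
      have := Complex.ofReal_injective h2
      linarith
  · intro j hj
    set ζ := Complex.exp (2 * Real.pi * Complex.I * (j / n)) with hζ
    have hζp : IsPrimitiveRoot ζ n := Complex.isPrimitiveRoot_exp_of_coprime j n hn0.ne' hj
    have hinv : ∀ y : ℂ, IsPrimitiveRoot y n → y ^ (n - 1) = y⁻¹ := by
      intro y hy
      have h1 : y ^ n = 1 := hy.pow_eq_one
      have hy0 : y ≠ 0 := hy.ne_zero hn0.ne'
      apply eq_inv_of_mul_eq_one_left
      rw [← pow_succ, Nat.sub_add_cancel hn0, h1]
    have hmin : minpoly ℚ ζ = minpoly ℚ α := by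
      rw [← cyclotomic_eq_minpoly_rat hζp hn0, ← cyclotomic_eq_minpoly_rat hprim hn0]
    have hcomp : ∀ y : ℂ, IsPrimitiveRoot y n →
        aeval y (P.comp (X + X ^ (n - 1) + 3)) = aeval (y + y⁻¹ + 3) P := by
      intro y hy
      rw [aeval_comp]
      have e3 : aeval y (X + X ^ (n - 1) + 3 : ℚ[X]) = y + y⁻¹ + 3 := by
        rw [map_add, map_add, map_pow, aeval_X, hinv y hy, map_ofNat]
      rw [e3]
    have h1 : aeval α (P.comp (X + X ^ (n - 1) + 3)) = 0 := by
      rw [hcomp α hprim, hαs]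
      have e2 : (((q - 3 : ℝ)) : ℂ) + 3 = (q : ℂ) := by
        push_cast
        ring
      rw [e2]
      exact hqP
    have h2 : minpoly ℚ ζ ∣ P.comp (X + X ^ (n - 1) + 3) := by
      rw [hmin]
      exact minpoly.dvd ℚ α h1
    have h3 : aeval ζ (P.comp (X + X ^ (n - 1) + 3)) = 0 := by
      obtain ⟨Q, hQ⟩ := h2
      rw [hQ, map_mul, minpoly.aeval, zero_mul]
    rw [hcomp ζ hζp, hcosj j] at h3
    have h4 : aeval (((3 + 2 * Real.cos (2 * Real.pi * j / n) : ℝ)) : ℂ) P = 0 := by
      rw [← h3]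
      congr 2
      push_cast
      ring
    have h5 : aeval (algebraMap ℝ ℂ (3 + 2 * Real.cos (2 * Real.pi * j / n))) P =
        algebraMap ℝ ℂ (aeval (3 + 2 * Real.cos (2 * Real.pi * j / n)) P) :=
      aeval_algebraMap_apply ℂ _ P
    have h6 : algebraMap ℝ ℂ (aeval (3 + 2 * Real.cos (2 * Real.pi * j / n)) P) = 0 := by
      rw [← h5]
      exact h4
    exact (map_eq_zero (algebraMap ℝ ℂ)).1 h6

end Pool.Agent.TR80
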