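import Pool.Agent.TR80.Stm

/-!
# LINK: in a triangulation the neighbours of a vertex are connected
-/

set_option autoImplicit false

namespace Pool.Agent.TR80

open Polynomial Pool.Agent.H207R2.BL Pool.Agent.Y865.RF Pool.Agent.Y655.RF
open Pool.Agent.H257R2.Tutte

namespace LINKaux

variable {V : Type}

theorem cn_symm {G : SimpleGraph V} {A : Set V} {u v : V} (h : Cn G A u v) : Cn G A v u := by
  obtain ⟨p, hp⟩ := h
  refine ⟨p.reverse, ?_⟩
  intro z hz
  rw [SimpleGraph.Walk.support_reverse, List.mem_reverse] at hz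
  exact hp z hz

theorem cn_set {G : SimpleGraph V} {A B : Set V} (hAB : ∀ z ∈ A, z ∈ B) {u v : V}
    (h : Cn G A u v) : Cn G B u v := by
  obtain ⟨p, hp⟩ := h
  exact ⟨p, fun z hz => hAB z (hp z hz)⟩

theorem cn_end {G : SimpleGraph V} {A : Set V} {u v : V} (h : Cn G A u v) : v ∈ A := by
  obtain ⟨p, hp⟩ := h
  exact hp v p.end_mem_support

/-- the walk stays in the set of the vertices which are joined to its start -/
theorem cn_self {G : SimpleGraph V} {A : Set V} {u v : V} (h : Cn G A u v) :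
    Cn G {z | Cn G A u z} u v := by
  classical
  obtain ⟨p, hp⟩ := h
  refine ⟨p, ?_⟩
  intro z hz
  refine ⟨p.takeUntil z hz, ?_⟩
  intro t ht
  exact hp t (p.support_takeUntil_subset_support hz ht)

end LINKaux

open LINKaux

theorem t_LINK (hCN : S_CN) (hK5 : S_K5) (hCYC : S_CYC) (hSEP : S_SEP) : S_LINK := by
  classical
  intro V _ _ S
  induction hN : S.card using Nat.strong_induction_on generalizing S with
  | _ n ih =>
  intro G hT s a b hsa hsb
  obtain ⟨hS3, hIn, hW, hE⟩ := hT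
  rcases Nat.lt_or_ge S.card 4 with h4 | h4
  · -- three vertices
    have hS : S.card = 3 := by omega
    by_cases hab : a = b
    · subst hab
      exact cn_refl G hsa
    · have h1 : EE G ⊆ S.offDiag := by
        intro p hp
        have h1 := mem_EE.1 hp
        rw [Finset.mem_offDiag]
        exact ⟨(hIn _ _ h1).1, (hIn _ _ h1).2, h1.ne⟩
      have h2 : EE G = S.offDiag := by
        apply Finset.eq_of_subset_of_card_le h1
        rw [Finset.offDiag_card, hS]
        omega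
      have h3 : G.Adj a b := by
        have h4 : (a, b) ∈ EE G := by
          rw [h2, Finset.mem_offDiag]
          exact ⟨(hIn _ _ hsa).2, (hIn _ _ hsb).2, hab⟩
        exact mem_EE.1 h4
      exact cn_edge h3 hsa hsb
  by_contra hcon
  set A : Finset V := Finset.univ.filter (fun v => Cn G (G.neighborSet s) a v) with hA
  have mA : ∀ v, v ∈ A ↔ Cn G (G.neighborSet s) a v := by
    intro v
    rw [hA, Finset.mem_filter]
    exact ⟨fun h => h.2, fun h => ⟨Finset.mem_univ _, h⟩⟩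
  have hAs : ∀ v ∈ A, G.Adj s v := fun v hv => cn_end ((mA v).1 hv)
  have haA : a ∈ A := (mA a).2 (cn_refl G hsa)
  have hA2 : ∀ v ∈ A, 2 ≤ (NN G v ∩ A).card := by
    intro v hv
    refine (hCN V S G ⟨hS3, hIn, hW, hE⟩ h4 s v (hAs v hv)).trans (Finset.card_le_card ?_)
    intro y hy
    rw [Finset.mem_inter, mem_NN, mem_NN] at hy
    rw [Finset.mem_inter, mem_NN, mA]
    exact ⟨hy.2, cn_trans ((mA v).1 hv) (cn_edge hy.2 (hAs v hv) hy.1)⟩
  obtain ⟨D, hDA, hD3, hDc, hDn⟩ := hCYC V G A ⟨a, haA⟩ hA2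
  have hDs : ∀ d ∈ D, G.Adj s d := fun d hd => hAs d (hDA hd)
  have hDS : ∀ d ∈ D, d ∈ S := fun d hd => (hIn _ _ (hDs d hd)).2
  have hbD : b ∉ D := fun h => hcon ((mA b).1 (hDA h))
  have hsS : s ∈ S := (hIn _ _ hsa).1
  set R : Set V := {v | v ∈ S ∧ v ∉ D ∧ v ≠ s} with hR
  have hbR : b ∈ R := ⟨(hIn _ _ hsb).2, hbD, hsb.ne'⟩
  set Q : Finset V := Finset.univ.filter (fun v => Cn G R b v) with hQ
  have mQ : ∀ v, v ∈ Q ↔ Cn G R b v := by
    intro v
    rw [hQ, Finset.mem_filter]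
    exact ⟨fun h => h.2, fun h => ⟨Finset.mem_univ _, h⟩⟩
  have hQR : ∀ v ∈ Q, v ∈ R := fun v hv => cn_end ((mQ v).1 hv)
  have hbQ : b ∈ Q := (mQ b).2 (cn_refl G hbR)
  have hQb : ∀ v ∈ Q, Cn G (Q : Set V) b v := fun v hv =>
    cn_set (fun z hz => Finset.mem_coe.2 ((mQ z).2 hz)) (cn_self ((mQ v).1 hv))
  have hQc : ∀ u ∈ (Q : Set V), ∀ v ∈ (Q : Set V), Cn G (Q : Set V) u v := fun u hu v hv =>
    cn_trans (cn_symm (hQb u (Finset.mem_coe.1 hu))) (hQb v (Finset.mem_coe.1 hv))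
  have hDQ : ∀ d ∈ D, d ∉ Q := fun d hd h => (hQR d h).2.1 hd
  have hsQ : s ∉ Q := fun h => (hQR s h).2.2 rfl
  -- the attachments
  have hatt : ∀ x ∈ D, ∀ y ∈ D, ∀ z ∈ D, x ≠ y → x ≠ z → y ≠ z →
      (∃ u ∈ Q, G.Adj x u) → (∃ u ∈ Q, G.Adj y u) → ¬ (∃ u ∈ Q, G.Adj z u) := by
    intro x hx y hy z hz hxy hxz hyz h1 h2 h3
    apply hW
    exact hK5 V S G s (D : Set V) (Q : Set V) b hsS (fun d hd => Finset.mem_coe.2 (hDS d hd))
      (fun d hd => Finset.mem_coe.2 (hQR d hd).1) (fun d hd => hDs d hd)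
      (fun z hz x hx y hy h h' => hDc z hz x hx y hy h h') (fun h => hsQ h)
      (fun d hd h => hDQ d hd h) hQc hbQ hsb x hx y hy z hz hxy hxz hyz h1 h2 h3
  have key : ∃ x ∈ D, ∃ y ∈ D, x ≠ y ∧ (∀ z ∈ D, (∃ u ∈ Q, G.Adj z u) → z = x ∨ z = y) ∧
      (G.Adj x y ∨ ((∃ u ∈ Q, G.Adj x u) ∧ (∃ u ∈ Q, G.Adj y u))) := by
    by_cases h1 : ∃ x ∈ D, ∃ u ∈ Q, G.Adj x u
    · obtain ⟨x, hx, hxu⟩ := h1
      by_cases h2 : ∃ y ∈ D, y ≠ x ∧ ∃ u ∈ Q, G.Adj y u
      · obtain ⟨y, hy, hyx, hyu⟩ := h2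
        refine ⟨x, hx, y, hy, hyx.symm, ?_, Or.inr ⟨hxu, hyu⟩⟩
        intro z hz hzu
        by_contra h3
        push Not at h3
        exact hatt x hx y hy z hz hyx.symm h3.1.symm h3.2.symm hxu hyu hzu
      · push Not at h2
        obtain ⟨y, hy, hxy⟩ := hDn x hx
        refine ⟨x, hx, y, hy, hxy.ne, ?_, Or.inl hxy⟩
        rintro z hz ⟨u, hu, hzu⟩
        by_contra h3
        push Not at h3
        exact h2 z hz h3.1 u hu hzu
    · push Not at h1
      obtain ⟨x, hx⟩ : D.Nonempty := Finset.card_pos.1 (by omega)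
      obtain ⟨y, hy, hxy⟩ := hDn x hx
      refine ⟨x, hx, y, hy, hxy.ne, ?_, Or.inl hxy⟩
      rintro z hz ⟨u, hu, hzu⟩
      exact absurd hzu (h1 z hz u hu)
  obtain ⟨x, hx, y, hy, hxy, hT, hcase⟩ := key
  obtain ⟨z, hz, hzx, hzy⟩ : ∃ z ∈ D, z ≠ x ∧ z ≠ y := by
    have h1 : ({x, y} : Finset V).card < D.card :=
      lt_of_le_of_lt Finset.card_le_two (by omega)
    obtain ⟨z, hz, hz'⟩ := Finset.exists_mem_notMem_of_card_lt_card h1
    rw [Finset.mem_insert, Finset.mem_singleton] at hz'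
    push Not at hz'
    exact ⟨z, hz, hz'.1, hz'.2⟩
  have hTri := hSEP V S G ⟨hS3, hIn, hW, hE⟩ Q s x y (fun v hv => (hQR v hv).1) ⟨b, hbQ⟩ hsQ
    (hDQ x hx) (hDQ y hy) (by
      intro u hu v huv
      by_cases hvD : v ∈ D
      · exact Or.inr (Or.inr (hT v hvD ⟨u, hu, huv.symm⟩))
      · by_cases hvs : v = s
        · exact Or.inr (Or.inl hvs)
        · refine Or.inl ((mQ v).2 (cn_trans ((mQ u).1 hu) (cn_edge huv (hQR u hu) ?_)))
          exact ⟨(hIn _ _ huv).2, hvD, hvs⟩) hxy (hDs x hx) (hDs y hy) (by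
      rcases hcase with h | ⟨⟨u, hu, hxu⟩, ⟨v, hv, hyv⟩⟩
      · exact Or.inl h
      · refine Or.inr ⟨?_, ?_⟩
        · have h1 : Cn G ((Q : Set V) ∪ {x, y}) u v :=
            cn_set (fun t ht => Or.inl ht) (hQc u hu v hv)
          have h2 : Cn G ((Q : Set V) ∪ {x, y}) x u :=
            cn_edge hxu (Or.inr (Or.inl rfl)) (Or.inl hu)
          have h3 : Cn G ((Q : Set V) ∪ {x, y}) v y :=
            cn_edge hyv.symm (Or.inl hv) (Or.inr (Or.inr rfl))
          exact cn_trans h2 (cn_trans h1 h3)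
        · refine cn_set ?_ (hDc z hz x hx y hy hzx.symm hzy.symm)
          rintro t ⟨ht, htz⟩
          have ht' : t ∈ D := ht
          by_cases h1 : t = x
          · exact Or.inr (Or.inl h1)
          · by_cases h2 : t = y
            · exact Or.inr (Or.inr h2)
            · exact Or.inl ⟨hDS t ht', hDQ t ht', (hDs t ht').ne', h1, h2⟩)
  have hlt : (Q ∪ {s, x, y}).card < n := by
    rw [← hN]
    apply Finset.card_lt_card
    refine ⟨?_, ?_⟩
    · intro v hv
      rw [Finset.mem_union, Finset.mem_insert, Finset.mem_insert, Finset.mem_singleton] at hv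
      rcases hv with hv | rfl | rfl | rfl
      · exact (hQR v hv).1
      · exact hsS
      · exact hDS _ hx
      · exact hDS _ hy
    · intro h
      have h1 := h (hDS z hz)
      rw [Finset.mem_union, Finset.mem_insert, Finset.mem_insert, Finset.mem_singleton] at h1
      rcases h1 with h1 | h1 | h1 | h1
      · exact hDQ z hz h1
      · exact (hDs z hz).ne' h1
      · exact hzx h1
      · exact hzy h1
  have hb' : (res G (Q ∪ {s, x, y})).Adj s b :=
    ⟨Finset.mem_union_right _ (by simp), Finset.mem_union_left _ hbQ, hsb⟩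
  have hx' : (res G (Q ∪ {s, x, y})).Adj s x :=
    ⟨Finset.mem_union_right _ (by simp), Finset.mem_union_right _ (by simp), hDs x hx⟩
  have hfin := ih _ hlt (Q ∪ {s, x, y}) rfl _ hTri s b x hb' hx'
  have hle : res G (Q ∪ {s, x, y}) ≤ G := fun _ _ h => h.2.2
  have h5 : Cn G (G.neighborSet s) b x :=
    cn_set (fun t ht => hle ht) (cn_mono hle hfin)
  exact hcon (cn_trans ((mA x).1 (hDA hx)) (cn_symm h5))

end Pool.Agent.TR80
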