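import Pool.Agent.TR80.Stm

/-!
# Part NEG: no chromatic roots `< 0`
-/

set_option autoImplicit false

namespace Pool.Agent.TR80

open Polynomial Pool.Agent.H207R2.BL

theorem chr_empty_eq {V : Type} [Finite V] [IsEmpty V] (G : SimpleGraph V) : chr G = 1 := by
  refine (eq_chr (p := (1 : ℝ[X])) ?_).symm
  intro k
  rw [card_colorings]
  have : Nat.card {g : V → Fin k // Proper G g} = 1 := by
    rw [Nat.card_eq_one_iff_unique]
    refine ⟨⟨fun a b => Subtype.ext (funext fun x => (IsEmpty.false x).elim)⟩,
      ⟨fun x => (IsEmpty.false x).elim, fun a => (IsEmpty.false a).elim⟩⟩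
  rw [this]
  simp

theorem card_ne_add_one {V : Type} [Finite V] (v : V) :
    Nat.card {x : V // x ≠ v} + 1 = Nat.card V := by
  classical
  have : Fintype V := Fintype.ofFinite V
  rw [Nat.card_eq_fintype_card, Nat.card_eq_fintype_card, Fintype.card_subtype_compl,
    Fintype.card_subtype_eq]
  have : 0 < Fintype.card V := Fintype.card_pos_iff.2 ⟨v⟩
  omega

theorem neg_pos_aux (q : ℝ) (hq : q < 0) (n : ℕ) : ∀ (V : Type) [Finite V] (G : SimpleGraph V),
    Nat.card V = n → 0 < (-1 : ℝ) ^ n * (chr G).eval q := by
  induction n with
  | zero =>
    intro V _ G hn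
    have : IsEmpty V := Finite.card_eq_zero_iff.1 hn
    rw [chr_empty_eq]
    simp
  | succ n ih =>
    intro V _ G hn
    classical
    have : Fintype V := Fintype.ofFinite V
    induction hm : G.edgeSet.ncard using Nat.strong_induction_on generalizing G with
    | _ m ihm =>
      subst hm
      by_cases hG : ∃ u v, G.Adj u v
      · obtain ⟨u, v, huv⟩ := hG
        set H : SimpleGraph V := G.deleteEdges {s(u, v)} with hH
        have hlt : H.edgeSet.ncard < G.edgeSet.ncard := by
          apply Set.ncard_lt_ncard _ (Set.toFinite _)
          rw [hH, SimpleGraph.edgeSet_deleteEdges]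
          refine ⟨Set.sdiff_subset, fun h => ?_⟩
          have := h ((SimpleGraph.mem_edgeSet G).2 huv)
          exact this.2 rfl
        have h1 := ihm _ hlt H rfl
        have h2 := del_con G H u v huv.ne (by
          intro h
          rw [hH, SimpleGraph.deleteEdges_adj] at h
          exact h.2 (by simp [Sym2.eq_swap])) (by
          intro x y
          rw [hH, SimpleGraph.deleteEdges_adj]
          constructor
          · intro h
            by_cases hxy : s(x, y) = s(u, v)
            · rw [Sym2.eq_iff] at hxy
              exact Or.inr hxy
            · exact Or.inl ⟨h, hxy⟩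
          · rintro (h | ⟨rfl, rfl⟩ | ⟨rfl, rfl⟩)
            · exact h.1
            · exact huv
            · exact huv.symm)
        have h3 := ih {x : V // x ≠ v} (contract H u v) (by
          have := card_ne_add_one v
          omega)
        have h4 := congrArg (Polynomial.eval q) h2
        rw [Polynomial.eval_add] at h4
        have h5 : (chr G).eval q = (chr H).eval q - (chr (contract H u v)).eval q := by linarith
        rw [h5]
        rw [pow_succ] at h1 ⊢
        nlinarith
      · push Not at hG
        have hne : Nonempty V := by
          by_contra h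
          rw [not_nonempty_iff] at h
          rw [Nat.card_of_isEmpty] at hn
          omega
        obtain ⟨v⟩ := hne
        have h1 := chr_isolated G v (fun x => hG v x)
        have h3 := ih {x : V // x ≠ v} (G.comap Subtype.val) (by
          have := card_ne_add_one v
          omega)
        rw [h1, Polynomial.eval_mul, Polynomial.eval_X, pow_succ]
        nlinarith

theorem t_NEG : S_NEG := by
  intro V _ G q hq h
  have := neg_pos_aux q hq (Nat.card V) V G rfl
  rw [h] at this
  simp at this

end Pool.Agent.TR80
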