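import Pool.Agent.TR80.Stm

/-!
# Project TR80, pieces NT1, NT2, NT3: the numbers `3 + 2 cos (2 π k / n)`
-/

set_option autoImplicit false

namespace Pool.Agent.TR80

namespace NTaux

/-- `cos (π - x)` is small for small `x` -/
lemma cos_small {x : ℝ} : Real.cos (Real.pi - x) ≤ -(1 - x ^ 2 / 2) := by
  rw [Real.cos_pi_sub]
  have := Real.one_sub_sq_div_two_le_cos (x := x)
  linarith

lemma pi_lt' : Real.pi < 3.15 := Real.pi_lt_d2

/-- the bad value of `j` for odd `n` -/
lemma odd_case {n : ℕ} (hn : n % 2 = 1) (h3 : 3 ≤ n) : ∃ j : ℕ, j.Coprime n ∧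
    Real.cos (2 * Real.pi * j / n) ≤ -(1 - (Real.pi / n) ^ 2 / 2) := by
  obtain ⟨j, hj⟩ : ∃ j, n = 2 * j + 1 := ⟨n / 2, by omega⟩
  refine ⟨j, ?_, ?_⟩
  · rw [hj]
    have : Nat.Coprime j (1 + j * 2) := by
      rw [Nat.coprime_add_mul_left_right]
      exact Nat.coprime_one_right j
    rwa [show 2 * j + 1 = 1 + j * 2 by ring]
  · have hn0 : (n : ℝ) ≠ 0 := by
      have : (n : ℝ) ≥ 3 := by exact_mod_cast h3
      linarith
    have e : 2 * Real.pi * j / n = Real.pi - Real.pi / n := by
      have hj' : (n : ℝ) = 2 * j + 1 := by exact_mod_cast hj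
      field_simp
      rw [hj']
      ring
    rw [e]
    exact cos_small

lemma four_case {n : ℕ} (hn : n % 4 = 0) (h3 : 3 ≤ n) : ∃ j : ℕ, j.Coprime n ∧
    Real.cos (2 * Real.pi * j / n) ≤ -(1 - (2 * Real.pi / n) ^ 2 / 2) := by
  obtain ⟨m, hm⟩ : ∃ m, n = 4 * (m + 1) := ⟨n / 4 - 1, by omega⟩
  refine ⟨2 * m + 1, ?_, ?_⟩
  · rw [hm]
    have h2 : Nat.Coprime (2 * m + 1) (2 + (2 * m + 1) * 2) := by
      rw [Nat.coprime_add_mul_left_right]
      rw [Nat.coprime_comm, Nat.Prime.coprime_iff_not_dvd Nat.prime_two]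
      omega
    rwa [show 4 * (m + 1) = 2 + (2 * m + 1) * 2 by ring]
  · have hn0 : (n : ℝ) ≠ 0 := by
      have : (n : ℝ) ≥ 3 := by exact_mod_cast h3
      linarith
    have e : 2 * Real.pi * ((2 * m + 1 : ℕ) : ℝ) / n = Real.pi - 2 * Real.pi / n := by
      have hj' : (n : ℝ) = 4 * (m + 1) := by exact_mod_cast hm
      field_simp
      rw [hj']
      push_cast
      ring
    rw [e]
    exact cos_small

lemma two_case {n : ℕ} (hn : n % 4 = 2) (h3 : 3 ≤ n) : ∃ j : ℕ, j.Coprime n ∧
    Real.cos (2 * Real.pi * j / n) ≤ -(1 - (4 * Real.pi / n) ^ 2 / 2) := by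
  obtain ⟨m, hm⟩ : ∃ m, n = 4 * (m + 1) + 2 := ⟨n / 4 - 1, by omega⟩
  refine ⟨2 * m + 1, ?_, ?_⟩
  · rw [hm]
    have h2 : Nat.Coprime (2 * m + 1) (4 + (2 * m + 1) * 2) := by
      rw [Nat.coprime_add_mul_left_right]
      rw [Nat.coprime_comm, show 4 = 2 ^ 2 by norm_num]
      apply Nat.Coprime.pow_left
      rw [Nat.Prime.coprime_iff_not_dvd Nat.prime_two]
      omega
    rwa [show 4 * (m + 1) + 2 = 4 + (2 * m + 1) * 2 by ring]
  · have hn0 : (n : ℝ) ≠ 0 := by
      have : (n : ℝ) ≥ 3 := by exact_mod_cast h3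
      linarith
    have e : 2 * Real.pi * ((2 * m + 1 : ℕ) : ℝ) / n = Real.pi - 4 * Real.pi / n := by
      have hj' : (n : ℝ) = 4 * (m + 1) + 2 := by exact_mod_cast hm
      field_simp
      rw [hj']
      push_cast
      ring
    rw [e]
    exact cos_small

/-- a bound for the square -/
lemma sq_bd {c : ℝ} {n m : ℕ} (hc : 0 ≤ c) (hm : 0 < m) (h : m ≤ n) :
    (c * Real.pi / n) ^ 2 / 2 ≤ (c * 3.15 / m) ^ 2 / 2 := by
  have hm' : (0 : ℝ) < m := by exact_mod_cast hm
  have hn' : (m : ℝ) ≤ n := by exact_mod_cast h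
  have h1 : c * Real.pi / n ≤ c * 3.15 / m := by
    apply div_le_div₀ (by positivity) _ hm' hn'
    exact mul_le_mul_of_nonneg_left pi_lt'.le hc
  have h2 : 0 ≤ c * Real.pi / n := by
    have := Real.pi_pos
    positivity
  have := pow_le_pow_left₀ h2 h1 2
  linarith

/-- reduction of `k` modulo `n` -/
lemma red (n k : ℕ) (hn : 3 ≤ n) (hk : k.Coprime n) : ∃ r : ℕ, 2 * r ≤ n ∧ r.Coprime n ∧
    Real.cos (2 * Real.pi * k / n) = Real.cos (2 * Real.pi * r / n) := by
  have hn0 : (n : ℝ) ≠ 0 := by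
    have : (n : ℝ) ≥ 3 := by exact_mod_cast hn
    linarith
  have hr : (k % n).Coprime n := by
    rw [Nat.coprime_comm, Nat.Coprime, Nat.gcd_comm, ← Nat.gcd_rec, Nat.gcd_comm]
    exact hk
  have hrn : k % n < n := Nat.mod_lt _ (by omega)
  have e1 : Real.cos (2 * Real.pi * k / n) = Real.cos (2 * Real.pi * ((k % n : ℕ) : ℝ) / n) := by
    have hk' : (k : ℝ) = ((k % n : ℕ) : ℝ) + ((k / n : ℕ) : ℝ) * n := by
      have := Nat.mod_add_div k n
      have h : ((k % n + n * (k / n) : ℕ) : ℝ) = k := by rw [this]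
      push_cast at h
      linarith
    have e : 2 * Real.pi * k / n
        = 2 * Real.pi * ((k % n : ℕ) : ℝ) / n + ((k / n : ℕ) : ℝ) * (2 * Real.pi) := by
      rw [hk']
      field_simp
    rw [e, Real.cos_add_nat_mul_two_pi]
  by_cases h : 2 * (k % n) ≤ n
  · exact ⟨k % n, h, hr, e1⟩
  · refine ⟨n - k % n, by omega, ?_, ?_⟩
    · have h1 : Nat.Coprime (n - k % n) (k % n) := by
        rw [Nat.coprime_sub_self_left hrn.le]
        exact hr.symm
      have h2 : Nat.Coprime (n - k % n) ((n - k % n) + k % n) := Nat.coprime_self_add_right.2 h1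
      rwa [Nat.sub_add_cancel hrn.le] at h2
    · rw [e1]
      have e : 2 * Real.pi * ((n - k % n : ℕ) : ℝ) / n
          = 2 * Real.pi - 2 * Real.pi * ((k % n : ℕ) : ℝ) / n := by
        rw [Nat.cast_sub hrn.le]
        field_simp
      rw [e, Real.cos_two_pi_sub]

/-- small values of the cosine -/
lemma six_mul_lt {n r : ℕ} (hn : 3 ≤ n) (hr : 2 * r ≤ n)
    (h : 1 / 2 < Real.cos (2 * Real.pi * r / n)) : 6 * r < n := by
  by_contra hcon
  push Not at hcon
  have hn0 : (0 : ℝ) < n := by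
    have : (n : ℝ) ≥ 3 := by exact_mod_cast hn
    linarith
  have hpi := Real.pi_pos
  have h1 : Real.pi / 3 ≤ 2 * Real.pi * r / n := by
    rw [div_le_div_iff₀ (by norm_num) hn0]
    have : (n : ℝ) ≤ 6 * r := by exact_mod_cast hcon
    nlinarith
  have h2 : 2 * Real.pi * r / n ≤ Real.pi := by
    rw [div_le_iff₀ hn0]
    have : (2 : ℝ) * r ≤ n := by exact_mod_cast hr
    nlinarith
  have h3 := Real.cos_le_cos_of_nonneg_of_le_pi (by positivity) h2 h1
  rw [Real.cos_pi_div_three] at h3
  linarith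

lemma dec : ∀ n ∈ N12, ∀ r ∈ Finset.range 27, r.Coprime n → 6 * r < n → (r, n) ∈ P10 := by
  decide

lemma cos_two_pi_div_five : Real.cos (2 * Real.pi / 5) = (√5 - 1) / 4 := by
  have e : 2 * Real.pi / 5 = 2 * (Real.pi / 5) := by ring
  rw [e, Real.cos_two_mul, Real.cos_pi_div_five]
  have h5 : (√5 : ℝ) ^ 2 = 5 := Real.sq_sqrt (by norm_num)
  nlinarith

end NTaux

open NTaux

theorem t_NT1 : S_NT1 := by
  intro n hn h
  by_contra hcon
  have hpi : Real.pi ^ 2 < 10 := by nlinarith [pi_lt', Real.pi_pos]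
  rcases Nat.even_or_odd n with he | ho
  · have h2 : n % 2 = 0 := Nat.even_iff.mp he
    rcases (show n % 4 = 0 ∨ n % 4 = 2 by omega) with h4 | h4
    · have h16 : 16 ≤ n := by
        by_contra hlt
        apply hcon
        have : n = 4 ∨ n = 8 ∨ n = 12 := by omega
        rcases this with rfl | rfl | rfl <;> decide
      obtain ⟨j, hj, hc⟩ := four_case h4 hn
      have h5 := h j hj
      have h6 := sq_bd (c := 2) (n := n) (m := 16) (by norm_num) (by norm_num) h16
      norm_num at h6 hc h5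
      linarith
    · have h30 : 30 ≤ n := by
        by_contra hlt
        apply hcon
        have : n = 6 ∨ n = 10 ∨ n = 14 ∨ n = 18 ∨ n = 22 ∨ n = 26 := by omega
        rcases this with rfl | rfl | rfl | rfl | rfl | rfl <;> decide
      obtain ⟨j, hj, hc⟩ := two_case h4 hn
      have h5 := h j hj
      have h6 := sq_bd (c := 4) (n := n) (m := 30) (by norm_num) (by norm_num) h30
      norm_num at h6 hc h5
      linarith
  · have h2 : n % 2 = 1 := Nat.odd_iff.mp ho
    have h9 : 9 ≤ n := by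
      by_contra hlt
      apply hcon
      have : n = 3 ∨ n = 5 ∨ n = 7 := by omega
      rcases this with rfl | rfl | rfl <;> decide
    obtain ⟨j, hj, hc⟩ := odd_case h2 hn
    have h5 := h j hj
    have h6 := sq_bd (c := 1) (n := n) (m := 9) (by norm_num) (by norm_num) h9
    norm_num at h6 hc h5
    linarith

theorem t_NT2 : S_NT2 := by
  intro n hn k hk h
  have hall : ∀ n ∈ N12, 3 ≤ n ∧ n ≤ 26 := by decide
  have h3 := hall n hn
  obtain ⟨r, hr1, hr2, hr3⟩ := red n k h3.1 hk
  rw [hr3] at h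
  have h6 := six_mul_lt h3.1 hr1 (by linarith)
  refine ⟨(r, n), dec n hn r (Finset.mem_range.2 (by omega)) hr2 h6, ?_⟩
  rw [hr3]

theorem t_NT3 : S_NT3 := by
  intro n hn h k hk
  have hcases : n = 3 ∨ n = 4 ∨ n = 6 ∨ n = 10 := by
    by_contra hcon
    push Not at hcon
    rcases Nat.even_or_odd n with he | ho
    · have h2 : n % 2 = 0 := Nat.even_iff.mp he
      rcases (show n % 4 = 0 ∨ n % 4 = 2 by omega) with h4 | h4
      · obtain ⟨j, hj, hc⟩ := four_case h4 hn
        have h5 := h j hj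
        have h6 := sq_bd (c := 2) (n := n) (m := 8) (by norm_num) (by norm_num) (by omega)
        norm_num at h6 hc h5
        linarith
      · obtain ⟨j, hj, hc⟩ := two_case h4 hn
        have h5 := h j hj
        have h6 := sq_bd (c := 4) (n := n) (m := 14) (by norm_num) (by norm_num) (by omega)
        norm_num at h6 hc h5
        linarith
    · have h2 : n % 2 = 1 := Nat.odd_iff.mp ho
      obtain ⟨j, hj, hc⟩ := odd_case h2 hn
      have h5 := h j hj
      have h6 := sq_bd (c := 1) (n := n) (m := 5) (by norm_num) (by norm_num) (by omega)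
      norm_num at h6 hc h5
      linarith
  obtain ⟨r, hr1, hr2, hr3⟩ := red n k hn hk
  rw [hr3]
  simp only [Set.mem_insert_iff, Set.mem_singleton_iff]
  rcases hcases with rfl | rfl | rfl | rfl
  · have : r = 1 := by
      have : r ≤ 1 := by omega
      interval_cases r
      · simp at hr2
      · rfl
    subst this
    left
    have e : 2 * Real.pi * ((1 : ℕ) : ℝ) / ((3 : ℕ) : ℝ) = Real.pi - Real.pi / 3 := by
      push_cast; ring
    rw [e, Real.cos_pi_sub, Real.cos_pi_div_three]
    norm_num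
  · have : r = 1 := by
      have : r ≤ 2 := by omega
      interval_cases r
      · simp at hr2
      · rfl
      · norm_num at hr2
    subst this
    right; left
    have e : 2 * Real.pi * ((1 : ℕ) : ℝ) / ((4 : ℕ) : ℝ) = Real.pi / 2 := by
      push_cast; ring
    rw [e, Real.cos_pi_div_two]
    norm_num
  · have : r = 1 := by
      have : r ≤ 3 := by omega
      interval_cases r
      · simp at hr2
      · rfl
      · norm_num at hr2
      · norm_num at hr2
    subst this
    right; right; left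
    have e : 2 * Real.pi * ((1 : ℕ) : ℝ) / ((6 : ℕ) : ℝ) = Real.pi / 3 := by
      push_cast; ring
    rw [e, Real.cos_pi_div_three]
    norm_num
  · have : r = 1 ∨ r = 3 := by
      have : r ≤ 5 := by omega
      interval_cases r
      · simp at hr2
      · left; rfl
      · norm_num at hr2
      · right; rfl
      · norm_num at hr2
      · norm_num at hr2
    rcases this with rfl | rfl
    · right; right; right; left
      have e : 2 * Real.pi * ((1 : ℕ) : ℝ) / ((10 : ℕ) : ℝ) = Real.pi / 5 := by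
        push_cast; ring
      rw [e, Real.cos_pi_div_five]
      ring
    · right; right; right; right
      have e : 2 * Real.pi * ((3 : ℕ) : ℝ) / ((10 : ℕ) : ℝ) = Real.pi - 2 * Real.pi / 5 := by
        push_cast; ring
      rw [e, Real.cos_pi_sub, cos_two_pi_div_five]
      ring

end Pool.Agent.TR80
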