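import Pool.Agent.TR80.Stm

/-!
# Project TR80 (helper80), piece PATH
-/

set_option autoImplicit false

namespace Pool.Agent.TR80

open Pool.Agent.Y865.RF Pool.Agent.Y655.RF

lemma path_cn_symm {V : Type} {G : SimpleGraph V} {A : Set V} {u v : V} (h : Cn G A u v) :
    Cn G A v u := by
  obtain ⟨p, hp⟩ := h
  refine ⟨p.reverse, ?_⟩
  intro z hz
  rw [SimpleGraph.Walk.support_reverse, List.mem_reverse] at hz
  exact hp z hz

lemma path_cn_sub {V : Type} {G : SimpleGraph V} {A B : Set V} {u v : V} (hAB : A ⊆ B)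
    (h : Cn G A u v) : Cn G B u v := by
  obtain ⟨p, hp⟩ := h
  exact ⟨p, fun z hz => hAB (hp z hz)⟩

theorem t_PATH : S_PATH := by
  intro V _ _ S G hW A P x y hAS hPS hPA hxA hyA hC hW'
  apply hW
  obtain ⟨p, B, h1, h2, h3⟩ := hW'
  refine ⟨p, fun a b => {t | t ∈ B a b ∨ (t ∈ P ∧ x ∈ B a b ∧ y ∈ B a b)}, ?_, ?_, ?_⟩
  · intro a b hab
    obtain ⟨w, hw⟩ := h1 a b hab
    clear h1 h2 h3
    -- walks in `adde` are replaced
    have key : ∀ (C : Set V) (u v : V) (w : (adde (res G A) x y).Walk u v),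
        (∀ t ∈ w.support, t ∈ C) →
        Cn G {t | t ∈ C ∨ (t ∈ P ∧ x ∈ C ∧ y ∈ C)} u v := by
      intro C u v w
      induction w with
      | nil =>
        intro hw
        exact cn_refl G (Or.inl (hw _ (by simp)))
      | @cons a b c h p ih =>
        intro hw
        have ha : a ∈ C := hw a (by simp)
        have hb : b ∈ C := hw b (by simp)
        have h1 := ih (fun t ht => hw t (by simp [ht]))
        refine cn_trans ?_ h1
        rcases h with h | ⟨-, ⟨rfl, rfl⟩ | ⟨rfl, rfl⟩⟩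
        · exact cn_edge h.2.2 (Or.inl ha) (Or.inl hb)
        · refine path_cn_sub ?_ hC
          rintro t (ht | rfl | rfl)
          · exact Or.inr ⟨ht, ha, hb⟩
          · exact Or.inl ha
          · exact Or.inl hb
        · refine path_cn_sub ?_ (path_cn_symm hC)
          rintro t (ht | rfl | rfl)
          · exact Or.inr ⟨ht, hb, ha⟩
          · exact Or.inl hb
          · exact Or.inl ha
    exact key (B a b) _ _ w hw
  · intro a b c d hab hcd h4 h5 h6 h7
    have h8 := h2 a b c d hab hcd h4 h5 h6 h7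
    rw [Set.disjoint_left] at h8 ⊢
    rintro t (ht | ⟨ht, e1, e2⟩) (ht' | ⟨ht', e1', e2'⟩)
    · exact h8 ht ht'
    · exact hPA t ht' (h3 _ _ ht)
    · exact hPA t ht (h3 _ _ ht')
    · exact h8 e1 e1'
  · rintro a b t (ht | ⟨ht, -, -⟩)
    · exact hAS (h3 _ _ ht)
    · exact hPS ht

end Pool.Agent.TR80
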