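import Pool.Agent.TR80.Stm

/-!
# Project TR80 (helper80), piece SEP
-/

set_option autoImplicit false

namespace Pool.Agent.TR80

open Pool.Agent.Y865.RF Pool.Agent.Y655.RF

section sep

variable {V : Type} [Fintype V] [DecidableEq V]

omit [Fintype V] [DecidableEq V] in
lemma sep_In_res (G : SimpleGraph V) (A : Finset V) : In A (res G A) :=
  fun _ _ h => ⟨h.1, h.2.1⟩

omit [Fintype V] [DecidableEq V] in
lemma sep_res_le (G : SimpleGraph V) (A : Finset V) : res G A ≤ G := fun _ _ h => h.2.2

omit [Fintype V] [DecidableEq V] in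
lemma sep_not_ws {G : SimpleGraph V} {S A : Finset V} (hAS : A ⊆ S) (hW : ¬ WS (S : Set V) G) :
    ¬ WS (A : Set V) (res G A) :=
  fun h => hW (ws_mono (sep_res_le G A) (Finset.coe_subset.2 hAS) h)

omit [Fintype V] [DecidableEq V] in
lemma sep_In_adde {G : SimpleGraph V} {A : Finset V} {x y : V} (hx : x ∈ A) (hy : y ∈ A) :
    In A (adde (res G A) x y) := by
  rintro u v (h | ⟨-, ⟨rfl, rfl⟩ | ⟨rfl, rfl⟩⟩)
  · exact ⟨h.1, h.2.1⟩
  · exact ⟨hx, hy⟩
  · exact ⟨hy, hx⟩

lemma sep_card_adde {G : SimpleGraph V} {x y : V} (hxy : x ≠ y) (hn : ¬ G.Adj x y) :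
    (EE G).card + 2 ≤ (EE (adde G x y)).card := by
  have h1 : EE G ∪ {(x, y), (y, x)} ⊆ EE (adde G x y) := by
    intro p hp
    rw [Finset.mem_union, Finset.mem_insert, Finset.mem_singleton] at hp
    rw [mem_EE]
    rcases hp with hp | rfl | rfl
    · exact Or.inl (mem_EE.1 hp)
    · exact Or.inr ⟨hxy, Or.inl ⟨rfl, rfl⟩⟩
    · exact Or.inr ⟨hxy, Or.inr ⟨rfl, rfl⟩⟩
  have h2 : Disjoint (EE G) {(x, y), (y, x)} := by
    rw [Finset.disjoint_left]
    intro p hp hp'
    rw [Finset.mem_insert, Finset.mem_singleton] at hp'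
    rcases hp' with rfl | rfl
    · exact hn (mem_EE.1 hp)
    · exact hn (mem_EE.1 hp).symm
  have h3 := Finset.card_le_card h1
  rw [Finset.card_union_of_disjoint h2, Finset.card_pair] at h3
  · exact h3
  · intro h
    exact hxy (Prod.mk.inj h).1

end sep

theorem t_SEP (hP : S_PATH) : S_SEP := by
  intro V _ _ S G hT Q s x y hQS hQn hsQ hxQ hyQ hQe hxy hsx hsy hcon
  obtain ⟨hS3, hIn, hW, hE⟩ := hT
  have hsS : s ∈ S := (hIn _ _ hsx).1
  have hxS : x ∈ S := (hIn _ _ hsx).2
  have hyS : y ∈ S := (hIn _ _ hsy).2
  set T : Finset V := {s, x, y} with hTd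
  set A : Finset V := Q ∪ T with hA
  set B : Finset V := S \ Q with hB
  have hsT : s ∈ T := by simp [hTd]
  have hxT : x ∈ T := by simp [hTd]
  have hyT : y ∈ T := by simp [hTd]
  have hTm : ∀ z, z ∈ T ↔ z = s ∨ z = x ∨ z = y := by
    intro z
    simp [hTd]
  have hTS : T ⊆ S := by
    intro z hz
    rcases (hTm z).1 hz with rfl | rfl | rfl
    · exact hsS
    · exact hxS
    · exact hyS
  have hTQ : ∀ z ∈ T, z ∉ Q := by
    intro z hz
    rcases (hTm z).1 hz with rfl | rfl | rfl
    · exact hsQ
    · exact hxQ
    · exact hyQ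
  have hT3 : T.card = 3 := by
    rw [hTd]
    exact Finset.card_eq_three.2 ⟨s, x, y, hsx.ne, hsy.ne, hxy, rfl⟩
  have hTA : T ⊆ A := Finset.subset_union_right
  have hTB : T ⊆ B := fun z hz => Finset.mem_sdiff.2 ⟨hTS hz, hTQ z hz⟩
  have hAS : A ⊆ S := Finset.union_subset hQS hTS
  have hBS : B ⊆ S := Finset.sdiff_subset
  have hA3 : 3 ≤ A.card := by
    rw [← hT3]
    exact Finset.card_le_card hTA
  have hB3 : 3 ≤ B.card := by
    rw [← hT3]
    exact Finset.card_le_card hTB
  have hAc : A.card = Q.card + 3 := by
    rw [hA, Finset.card_union_of_disjoint, hT3]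
    rw [Finset.disjoint_left]
    intro z hz hz'
    exact hTQ z hz' hz
  have hBc : B.card + Q.card = S.card := Finset.card_sdiff_add_card_eq_card hQS
  -- the edges
  have hun : EE G = EE (res G A) ∪ EE (res G B) := by
    ext p
    rw [Finset.mem_union, mem_EE, mem_EE, mem_EE]
    constructor
    · intro h
      by_cases h1 : p.1 ∈ Q
      · left
        refine ⟨Finset.mem_union_left _ h1, ?_, h⟩
        rcases hQe _ h1 _ h with h2 | h2
        · exact Finset.mem_union_left _ h2
        · exact Finset.mem_union_right _ ((hTm _).2 h2)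
      · by_cases h2 : p.2 ∈ Q
        · left
          refine ⟨?_, Finset.mem_union_left _ h2, h⟩
          rcases hQe _ h2 _ h.symm with h3 | h3
          · exact Finset.mem_union_left _ h3
          · exact Finset.mem_union_right _ ((hTm _).2 h3)
        · right
          exact ⟨Finset.mem_sdiff.2 ⟨(hIn _ _ h).1, h1⟩, Finset.mem_sdiff.2 ⟨(hIn _ _ h).2, h2⟩, h⟩
    · rintro (h | h)
      · exact h.2.2
      · exact h.2.2
  have hint : EE (res G T) ⊆ EE (res G A) ∩ EE (res G B) := by
    intro p hp
    obtain ⟨h1, h2, h3⟩ := mem_EE.1 hp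
    rw [Finset.mem_inter, mem_EE, mem_EE]
    exact ⟨⟨hTA h1, hTA h2, h3⟩, ⟨hTB h1, hTB h2, h3⟩⟩
  have hcount : (EE G).card + (EE (res G T)).card ≤ (EE (res G A)).card + (EE (res G B)).card := by
    have h1 := Finset.card_union_add_card_inter (EE (res G A)) (EE (res G B))
    rw [← hun] at h1
    rw [← h1]
    exact Nat.add_le_add_left (Finset.card_le_card hint) _
  have hWA := sep_not_ws hAS hW
  have hWB := sep_not_ws hBS hW
  have hmA := mader_le (sep_In_res G A) hWA hA3
  have hmB := mader_le (sep_In_res G B) hWB hB3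
  have h4 : 4 ≤ (EE (res G T)).card := by
    have h1 : ({(s, x), (x, s), (s, y), (y, s)} : Finset (V × V)) ⊆ EE (res G T) := by
      intro p hp
      simp only [Finset.mem_insert, Finset.mem_singleton] at hp
      rw [mem_EE]
      rcases hp with rfl | rfl | rfl | rfl
      · exact ⟨hsT, hxT, hsx⟩
      · exact ⟨hxT, hsT, hsx.symm⟩
      · exact ⟨hsT, hyT, hsy⟩
      · exact ⟨hyT, hsT, hsy.symm⟩
    have h2 : ({(s, x), (x, s), (s, y), (y, s)} : Finset (V × V)).card = 4 := by
      rw [Finset.card_insert_of_notMem, Finset.card_insert_of_notMem, Finset.card_pair]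
      · intro h
        exact hsy.ne (Prod.mk.inj h).1
      · simp only [Finset.mem_insert, Finset.mem_singleton, Prod.mk.injEq]
        rintro (h | h)
        · exact hsx.ne h.1.symm
        · exact hxy h.1
      · simp only [Finset.mem_insert, Finset.mem_singleton, Prod.mk.injEq]
        rintro (h | h | h)
        · exact hsx.ne h.1
        · exact hxy h.2
        · exact hsy.ne h.1
    rw [← h2]
    exact Finset.card_le_card h1
  refine ⟨hA3, sep_In_res G A, hWA, ?_⟩
  by_cases hadj : G.Adj x y
  · have h6 : 6 ≤ (EE (res G T)).card := by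
      have h1 : ({(s, x), (x, s), (s, y), (y, s), (x, y), (y, x)} : Finset (V × V)) ⊆
          EE (res G T) := by
        intro p hp
        simp only [Finset.mem_insert, Finset.mem_singleton] at hp
        rw [mem_EE]
        rcases hp with rfl | rfl | rfl | rfl | rfl | rfl
        · exact ⟨hsT, hxT, hsx⟩
        · exact ⟨hxT, hsT, hsx.symm⟩
        · exact ⟨hsT, hyT, hsy⟩
        · exact ⟨hyT, hsT, hsy.symm⟩
        · exact ⟨hxT, hyT, hadj⟩
        · exact ⟨hyT, hxT, hadj.symm⟩
      have h2 : ({(s, x), (x, s), (s, y), (y, s), (x, y), (y, x)} : Finset (V × V)).card = 6 := by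
        have n1 := hsx.ne
        have n2 := hsy.ne
        rw [Finset.card_insert_of_notMem, Finset.card_insert_of_notMem,
          Finset.card_insert_of_notMem, Finset.card_insert_of_notMem, Finset.card_pair]
        · intro h
          exact hxy (Prod.mk.inj h).1
        · simp only [Finset.mem_insert, Finset.mem_singleton, Prod.mk.injEq]
          rintro (h | h)
          · exact hxy h.1.symm
          · exact n1 h.2
        · simp only [Finset.mem_insert, Finset.mem_singleton, Prod.mk.injEq]
          rintro (h | h | h)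
          · exact n2 h.1
          · exact n1 h.1
          · exact n2 h.1
        · simp only [Finset.mem_insert, Finset.mem_singleton, Prod.mk.injEq]
          rintro (h | h | h | h)
          · exact n1 h.1.symm
          · exact hxy h.1
          · exact n2 h.2
          · exact hxy h.1
        · simp only [Finset.mem_insert, Finset.mem_singleton, Prod.mk.injEq]
          rintro (h | h | h | h | h)
          · exact n1 h.1
          · exact hxy h.2
          · exact n2 h.1
          · exact n1 h.1
          · exact n2 h.1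
      rw [← h2]
      exact Finset.card_le_card h1
    omega
  · exfalso
    rcases hcon with h | ⟨hc1, hc2⟩
    · exact hadj h
    · -- the two graphs with the additional edge
      have hxA : x ∈ A := hTA hxT
      have hyA : y ∈ A := hTA hyT
      have hxB : x ∈ B := hTB hxT
      have hyB : y ∈ B := hTB hyT
      have hWA' : ¬ WS (A : Set V) (adde (res G A) x y) := by
        refine hP V S G hW A _ x y hAS ?_ ?_ hxA hyA hc2
        · intro z hz
          exact hz.1
        · rintro z ⟨h1, h2, h3, h4, h5⟩ hz
          rcases Finset.mem_union.1 hz with h | h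
          · exact h2 h
          · rcases (hTm z).1 h with h | h | h
            · exact h3 h
            · exact h4 h
            · exact h5 h
      have hWB' : ¬ WS (B : Set V) (adde (res G B) x y) := by
        refine hP V S G hW B _ x y hBS ?_ ?_ hxB hyB hc1
        · intro z hz
          exact hQS hz
        · intro z hz hz'
          exact (Finset.mem_sdiff.1 hz').2 hz
      have hmA' := mader_le (sep_In_adde hxA hyA) hWA' hA3
      have hmB' := mader_le (sep_In_adde hxB hyB) hWB' hB3
      have hnA : ¬ (res G A).Adj x y := fun h => hadj h.2.2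
      have hnB : ¬ (res G B).Adj x y := fun h => hadj h.2.2
      have hcA := sep_card_adde hxy hnA
      have hcB := sep_card_adde hxy hnB
      omega

end Pool.Agent.TR80
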