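import Pool.Agent.TR80.Stm

/-!
# Piece TD of project TR80 (helper61 for helper80)
-/

set_option autoImplicit false

namespace Pool.Agent.TR80

open Pool.Agent.H207R2.BL Pool.Agent.Y865.RF Pool.Agent.Y655.RF

namespace TDP

variable {V : Type} [DecidableEq V]

theorem crossing {G : SimpleGraph V} {A : Set V} (U : Finset V) {u v : V}
    (h : Cn G A u v) (hu : u ∈ U) (hv : v ∉ U) :
    ∃ s w, s ∈ U ∧ w ∉ U ∧ s ∈ A ∧ w ∈ A ∧ G.Adj s w := by
  obtain ⟨p, hp⟩ := h
  induction p with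
  | nil => exact absurd hu hv
  | @cons x y z hxy q ih =>
    have hx : x ∈ A := hp x (by simp)
    have hy : y ∈ A := hp y (by simp)
    by_cases hyU : y ∈ U
    · exact ih hyU hv (fun a ha => hp a (by simp [ha]))
    · exact ⟨x, y, hu, hyU, hx, hy, hxy⟩

theorem ds_nbr {G : SimpleGraph V} {U : Finset V} (h : DS G U) :
    ∀ s ∈ U, ∃ t ∈ U, G.Adj s t := by
  induction h with
  | base x y hxy =>
    intro s hs
    rw [Finset.mem_insert, Finset.mem_singleton] at hs
    rcases hs with rfl | rfl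
    · exact ⟨y, by simp, hxy⟩
    · exact ⟨x, by simp, hxy.symm⟩
  | step U w x y hU hw hx hy hxy hwx hwy ih =>
    intro s hs
    rcases Finset.mem_insert.1 hs with rfl | hs
    · exact ⟨x, Finset.mem_insert_of_mem hx, hwx⟩
    · obtain ⟨t, ht, hst⟩ := ih s hs
      exact ⟨t, Finset.mem_insert_of_mem ht, hst⟩

theorem ds_ne {G : SimpleGraph V} {U : Finset V} (h : DS G U) : U.Nonempty := by
  induction h with
  | base x y hxy => exact ⟨x, by simp⟩
  | step U w x y hU hw hx hy hxy hwx hwy ih => exact ⟨w, Finset.mem_insert_self _ _⟩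

end TDP

theorem t_TD (hL : S_LINK) (hC : S_CONN) : S_TD := by
  classical
  intro V _ _ G hT
  -- an edge
  obtain ⟨x, y, hxy⟩ : ∃ x y, G.Adj x y := by
    have h1 := hT.2.2.2
    have h2 := hT.1
    have h3 : 0 < (EE G).card := by omega
    obtain ⟨p, hp⟩ := Finset.card_pos.1 h3
    exact ⟨p.1, p.2, mem_EE.1 hp⟩
  let 𝒟 : Finset (Finset V) := Finset.univ.filter fun U => DS G U
  have hne : 𝒟.Nonempty := ⟨{x, y}, Finset.mem_filter.2 ⟨Finset.mem_univ _, DS.base x y hxy⟩⟩
  obtain ⟨U, hU, hmax⟩ := Finset.exists_max_image 𝒟 Finset.card hne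
  have hDS : DS G U := (Finset.mem_filter.1 hU).2
  by_cases hall : U = Finset.univ
  · rw [← hall]; exact hDS
  exfalso
  obtain ⟨v, hv⟩ : ∃ v, v ∉ U := by
    by_contra h
    push Not at h
    exact hall (Finset.eq_univ_iff_forall.2 h)
  obtain ⟨u, hu⟩ := TDP.ds_ne hDS
  obtain ⟨s, w, hs, hw, -, -, hsw⟩ := TDP.crossing U
    (hC V Finset.univ G hT u (Finset.mem_univ _) v (Finset.mem_univ _)) hu hv
  obtain ⟨t, ht, hst⟩ := TDP.ds_nbr hDS s hs
  obtain ⟨s', w', hs', hw', hs'N, hw'N, hadj⟩ := TDP.crossing U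
    (hL V Finset.univ G hT s t w hst hsw) ht hw
  have h1 : DS G (insert w' U) := DS.step U w' s s' hDS hw' hs hs' hs'N hw'N.symm hadj.symm
  have h2 := hmax _ (Finset.mem_filter.2 ⟨Finset.mem_univ _, h1⟩)
  rw [Finset.card_insert_of_notMem hw'] at h2
  omega

end Pool.Agent.TR80
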