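import Pool.Agent.TR80.Stm

set_option autoImplicit false

namespace Pool.Agent.TR80

open Polynomial Pool.Agent.H207R2.BL Pool.Agent.Y865.RF Pool.Agent.Y655.RF

theorem EE_card {V : Type} [Fintype V] [DecidableEq V] (G : SimpleGraph V) :
    (EE G).card = 2 * G.edgeSet.ncard := by
  classical
  have h := card_EE (G := G) (S := Finset.univ) (fun x y _ => ⟨Finset.mem_univ _, Finset.mem_univ _⟩)
  have h2 := G.sum_degrees_eq_twice_card_edges
  have h3 : ∀ x, (NN G x).card = G.degree x := by
    intro x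
    rw [← SimpleGraph.card_neighborFinset_eq_degree]
    congr 1
    ext y
    rw [mem_NN, SimpleGraph.mem_neighborFinset]
  rw [h, Finset.sum_congr rfl (fun x _ => h3 x), h2]
  congr 1
  rw [Set.ncard_eq_toFinset_card']
  rfl

theorem tr12 (hTD : S_TD) (hDD : S_DD) : S_TR12 := by
  classical
  intro V _ G hG hV hE q h1 h2
  refine hDD V G (hTD V G ⟨?_, ?_, ?_, ?_⟩) q h1 h2
  · rw [Finset.card_univ]
    exact hV
  · intro x y _
    exact ⟨Finset.mem_univ _, Finset.mem_univ _⟩
  · rintro ⟨x, A, h3, h4, _⟩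
    exact hG ⟨x, A, h3, h4⟩
  · rw [EE_card, Finset.card_univ]
    omega

end Pool.Agent.TR80
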