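import Pool.Agent.TR80.Main
import Pool.Agent.TR80.JA
import Pool.Agent.TR80.TR12
import Pool.Agent.TR80.NEG
import Pool.Agent.TR80.JA1
import Pool.Agent.TR80.GL
import Pool.Agent.TR80.KR
import Pool.Agent.TR80.NT
import Pool.Agent.TR80.DD
import Pool.Agent.TR80.CN
import Pool.Agent.TR80.PATH
import Pool.Agent.TR80.SEP
import Pool.Agent.TR80.K5
import Pool.Agent.TR80.CYC
import Pool.Agent.TR80.LINK
import Pool.Agent.TR80.TD

set_option autoImplicit false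

namespace Pool.Agent.TR80

open Polynomial Pool.Agent.H207R2.BL Pool.Agent.Y865.RF Pool.Agent.Y655.RF

theorem t_JA : S_JA := ja t_JA1 t_GL0 t_GL1

theorem t_TR12 : S_TR12 :=
  tr12 (t_TD (t_LINK t_CN t_K5 t_CYC (t_SEP t_PATH)) t_CONN) t_DD

theorem fin {V : Type} [Fintype V] (G : SimpleGraph V) (hG : ¬ WK V G)
    (q : ℝ) (hq : (chr G).eval q = 0) :
    (IsIntegral ℤ q ∧ ∀ z : ℝ, aeval z (minpoly ℚ q) = 0 →
      z = 0 ∨ z = 1 ∨ (32 / 27 ≤ z ∧ z < 5)) ∧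
    ((∀ z : ℂ, aeval z (minpoly ℚ q) = 0 → z.im = 0) →
      (q = 0 ∨ q = 1 ∨ ∃ n ∈ N12, ∃ k : ℕ, k.Coprime n ∧
        q = 3 + 2 * Real.cos (2 * Real.pi * k / n)) ∧
      (4 < q → ∃ p ∈ P10, q = 3 + 2 * Real.cos (2 * Real.pi * (p.1 : ℝ) / (p.2 : ℝ))) ∧
      (3 ≤ Fintype.card V → G.edgeSet.ncard + 6 = 3 * Fintype.card V →
        q = 0 ∨ q = 1 ∨ q ∈ ({2, 3, 4, (7 + √5) / 2, (7 - √5) / 2} : Set ℝ))) :=
  main t_NEG t_JA t_KR t_NT1 t_NT2 t_NT3 t_TR12 G hG q hq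

end Pool.Agent.TR80
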