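import Pool.Agent.TR80.Stm

set_option autoImplicit false

namespace Pool.Agent.TR80

open Polynomial Pool.Agent.H207R2.BL Pool.Agent.Y865.RF Pool.Agent.Y655.RF

theorem minpoly_root {V : Type} [Finite V] (G : SimpleGraph V) {q : ℝ}
    (hq : (chr G).eval q = 0) :
    IsIntegral ℤ q ∧ ∀ z : ℝ, aeval z (minpoly ℚ q) = 0 → (chr G).eval z = 0 := by
  obtain ⟨P, hP, hPc⟩ := exists_chrom G
  have hpc : P.map (Int.castRingHom ℝ) = chr G := eq_chr hPc
  have hint : IsIntegral ℤ q := by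
    refine ⟨P, hP, ?_⟩
    rw [← hq, ← hpc, Polynomial.eval_map]
    rfl
  refine ⟨hint, ?_⟩
  intro z hz
  have h1 : aeval q (P.map (Int.castRingHom ℚ)) = 0 := by
    rw [aeval_def, eval₂_map, ← hq, ← hpc, eval_map]
    congr 1
  obtain ⟨R, hR⟩ := minpoly.dvd ℚ q h1
  have h2 : aeval z (P.map (Int.castRingHom ℚ)) = 0 := by
    rw [hR, map_mul, hz, zero_mul]
  rw [← hpc, eval_map, ← h2, aeval_def, eval₂_map]
  congr 1

theorem complex_root {q : ℝ} {z : ℂ} (hz : aeval z (minpoly ℚ q) = 0) (him : z.im = 0) :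
    aeval z.re (minpoly ℚ q) = 0 := by
  have h1 : z = (z.re : ℂ) := by
    apply Complex.ext
    · simp
    · simpa using him
  have h2 : aeval ((algebraMap ℝ ℂ) z.re) (minpoly ℚ q) = algebraMap ℝ ℂ (aeval z.re (minpoly ℚ q)) :=
    Polynomial.aeval_algebraMap_apply ℂ z.re (minpoly ℚ q)
  have h3 : algebraMap ℝ ℂ (aeval z.re (minpoly ℚ q)) = 0 := by
    rw [← h2, Complex.coe_algebraMap, ← h1, hz]
  exact (map_eq_zero (algebraMap ℝ ℂ)).1 h3

/-- a rational root of the minimal polynomial -/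
theorem eq_of_rat_root {q : ℝ} (hq : IsIntegral ℤ q) (r : ℚ)
    (h : aeval (r : ℝ) (minpoly ℚ q) = 0) : q = r := by
  have hint : IsIntegral ℚ q := hq.tower_top
  have h1 : (minpoly ℚ q).IsRoot r := by
    have h2 : algebraMap ℚ ℝ ((minpoly ℚ q).eval r) = 0 := by
      rw [← h]
      have := Polynomial.aeval_algebraMap_apply ℝ r (minpoly ℚ q)
      simp only [eq_ratCast] at this ⊢
      rw [this]
      simp
    exact (map_eq_zero (algebraMap ℚ ℝ)).1 h2
  have hirr := minpoly.irreducible hint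
  have hdeg := Polynomial.degree_eq_one_of_irreducible_of_root hirr h1
  have hm := minpoly.monic hint
  have h3 : minpoly ℚ q = X - C r := by
    have h4 := dvd_iff_isRoot.2 h1
    have h5 : (X - C r).Monic := monic_X_sub_C r
    exact Polynomial.eq_of_monic_of_dvd_of_natDegree_le h5 hm h4 (by
      rw [natDegree_X_sub_C]
      exact (Polynomial.natDegree_eq_of_degree_eq_some hdeg).le)
  have h6 := minpoly.aeval ℚ q
  rw [h3] at h6
  simp only [map_sub, aeval_X, aeval_C, eq_ratCast] at h6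
  linarith

theorem window (hNEG : S_NEG) (hJA : S_JA) {V : Type} [Finite V] (G : SimpleGraph V)
    (hG : ¬ WK V G) {z : ℝ} (hz : (chr G).eval z = 0) :
    z = 0 ∨ z = 1 ∨ (32 / 27 ≤ z ∧ z < 5) := by
  by_contra hcon
  push Not at hcon
  obtain ⟨h0, h1, h2⟩ := hcon
  rcases lt_trichotomy z 0 with h | h | h
  · exact hNEG V G z h hz
  · exact h0 h
  rcases lt_trichotomy z 1 with h' | h' | h'
  · exact hJA V G z (Or.inl ⟨h, h'⟩) hz
  · exact h1 h'
  rcases lt_or_ge z (32 / 27) with h3 | h3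
  · exact hJA V G z (Or.inr ⟨h', h3⟩) hz
  rcases lt_or_eq_of_le (h2 h3) with h4 | h4
  · exact (minor_pos (fun V G => ¬ WK V G) mc 5 (fun V _ _ G hG => t_deg V G hG) z
      (by exact_mod_cast h4) G hG).ne' hz
  · rw [← h4] at hz
    exact (five_pos t_kempe t_deg G hG).ne' hz

/-- the main theorem -/
theorem main (hNEG : S_NEG) (hJA : S_JA) (hKR : S_KR) (hNT1 : S_NT1) (hNT2 : S_NT2)
    (hNT3 : S_NT3) (hTR : S_TR12) {V : Type} [Fintype V] (G : SimpleGraph V) (hG : ¬ WK V G)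
    (q : ℝ) (hq : (chr G).eval q = 0) :
    (IsIntegral ℤ q ∧ ∀ z : ℝ, aeval z (minpoly ℚ q) = 0 →
      z = 0 ∨ z = 1 ∨ (32 / 27 ≤ z ∧ z < 5)) ∧
    ((∀ z : ℂ, aeval z (minpoly ℚ q) = 0 → z.im = 0) →
      (q = 0 ∨ q = 1 ∨ ∃ n ∈ N12, ∃ k : ℕ, k.Coprime n ∧
        q = 3 + 2 * Real.cos (2 * Real.pi * k / n)) ∧
      (4 < q → ∃ p ∈ P10, q = 3 + 2 * Real.cos (2 * Real.pi * (p.1 : ℝ) / (p.2 : ℝ))) ∧
      (3 ≤ Fintype.card V → G.edgeSet.ncard + 6 = 3 * Fintype.card V →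
        q = 0 ∨ q = 1 ∨ q ∈ ({2, 3, 4, (7 + √5) / 2, (7 - √5) / 2} : Set ℝ))) := by
  obtain ⟨hint, hroot⟩ := minpoly_root G hq
  have hw : ∀ z : ℝ, aeval z (minpoly ℚ q) = 0 → z = 0 ∨ z = 1 ∨ (32 / 27 ≤ z ∧ z < 5) :=
    fun z hz => window hNEG hJA G hG (hroot z hz)
  refine ⟨⟨hint, hw⟩, ?_⟩
  intro hreal
  by_cases h0 : q = 0
  · refine ⟨Or.inl h0, fun h => by linarith, fun _ _ => Or.inl h0⟩
  by_cases h1 : q = 1
  · refine ⟨Or.inr (Or.inl h1), fun h => by linarith, fun _ _ => Or.inr (Or.inl h1)⟩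
  have hw' : ∀ z : ℝ, aeval z (minpoly ℚ q) = 0 → 32 / 27 ≤ z ∧ z < 5 := by
    intro z hz
    rcases hw z hz with h | h | h
    · exfalso
      apply h0
      have := eq_of_rat_root hint 0 (by rw [h] at hz; exact_mod_cast hz)
      simpa using this
    · exfalso
      apply h1
      have := eq_of_rat_root hint 1 (by rw [h] at hz; exact_mod_cast hz)
      simpa using this
    · exact h
  obtain ⟨n, hn3, k, hk, hqk, hj⟩ := hKR q hint (by
    intro z hz
    have him := hreal z hz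
    have := hw' z.re (complex_root hz him)
    refine ⟨him, by linarith [this.1], this.2⟩)
  have hn : n ∈ N12 := hNT1 n hn3 (fun j hjn => (hw' _ (hj j hjn)).1)
  refine ⟨Or.inr (Or.inr ⟨n, hn, k, hk, hqk⟩), ?_, ?_⟩
  · intro h4
    obtain ⟨p, hp, hpc⟩ := hNT2 n hn k hk (by rw [← hqk]; exact h4)
    exact ⟨p, hp, by rw [hqk, hpc]⟩
  · intro hV hE
    refine Or.inr (Or.inr ?_)
    rw [hqk]
    refine hNT3 n hn3 ?_ k hk
    intro j hjn
    have h5 := hw' _ (hj j hjn)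
    by_contra hcon
    push Not at hcon
    exact hTR V G hG hV hE _ (by linarith [h5.1]) hcon (hroot _ (hj j hjn))

end Pool.Agent.TR80
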