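import Pool.Agent.R814.BL.Main
import Pool.Agent.Y655.RF.Deg
import Pool.Agent.H257R2.Tutte.Final

/-!
# Totally real chromatic roots of planar graphs: statements of the parts (project TR80)

Final theorem (for MP_0d034c_co, Birkhoff-Lewis): if the real number `q` is a chromatic root of a
planar graph, then every real conjugate of `q` other than `0, 1` lies in `[32/27, 5)`; if all
conjugates of `q` are real, then `q` is one of 33 explicit numbers, ten of which are `> 4`; and if
the graph is a triangulation then `q` is one of `0, 1, 2, 3, 4, (7 ± √5)/2`.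
-/

set_option autoImplicit false

namespace Pool.Agent.TR80

open Polynomial Pool.Agent.H207R2.BL Pool.Agent.Y865.RF Pool.Agent.Y655.RF
open Pool.Agent.H257R2.Tutte

/-! ## Part 1: values where the chromatic polynomial of every graph is not zero -/

/-- NEG. Proof: `(-1)^|V| P(G,q) > 0` for `q < 0`, by deletion-contraction (`del_con` in
H207R2/BL/Woodall.lean), induction on the number of vertices and edges. -/
def S_NEG : Prop := ∀ (V : Type) [Finite V] (G : SimpleGraph V) (q : ℝ), q < 0 →
  (chr G).eval q ≠ 0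

/-- JA1 (Jackson, 2-connected case). Proof: `P(G,q) = tutteZ ends q (-1)` with
`ends : G.edgeSet → Sym2 V` the inclusion (as in `exists_chrom` of H207R2/BL/Woodall.lean: both sides
count for natural `q` the proper colourings, `IsChrom.unique`); then `sign_of_allGood` in
H257R2/Tutte/Final.lean with `m = 2` and `v = -1`, for the `a` of `exists_small` in
H257R2/Tutte/RankThm.lean.  One needs `0 ≤ dl q a`, i.e. `q ≤ 1 - a`; this is visible in the proof of
`exists_small` (repeat this proof with the additional conclusion). -/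
def S_JA1 : Prop := ∀ (V : Type) [Fintype V] (G : SimpleGraph V) (q : ℝ),
  ((0 < q ∧ q < 1) ∨ (1 < q ∧ q < 32 / 27)) →
  ∀ [Fintype G.edgeSet], TwoConnected (fun e : G.edgeSet => (e : Sym2 V)) → (chr G).eval q ≠ 0

/-- GL0: a disjoint union. Proof: count colourings for natural `q`. -/
def S_GL0 : Prop := ∀ (V : Type) [Finite V] (G : SimpleGraph V) (A : Set V),
  (∀ x ∈ A, ∀ y, y ∉ A → ¬ G.Adj x y) →
  chr G = chr (G.induce A) * chr (G.induce Aᶜ)

/-- GL1: gluing at a vertex `w`. Proof: count colourings for natural `q`; the number of colourings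
of a graph with a prescribed colour at `w` does not depend on the colour (permute the colours). -/
def S_GL1 : Prop := ∀ (V : Type) [Finite V] (G : SimpleGraph V) (w : V) (A : Set V), w ∉ A →
  (∀ x ∈ A, ∀ y, y ∉ A → y ≠ w → ¬ G.Adj x y) →
  X * chr G = chr (G.induce (insert w A)) * chr (G.induce Aᶜ)

/-- JA (Jackson): from JA1, GL0, GL1 by induction on the number of vertices. -/
def S_JA : Prop := ∀ (V : Type) [Finite V] (G : SimpleGraph V) (q : ℝ),
  ((0 < q ∧ q < 1) ∨ (1 < q ∧ q < 32 / 27)) → (chr G).eval q ≠ 0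

/-! ## Part 2: Kronecker's theorem -/

/-- KR. Proof: let `β = q - 3 = 2 cos θ`, `α = exp(iθ)`, a root of `x² - βx + 1`, so an algebraic
integer.  For an embedding `σ` of `ℚ(α)` the number `σ(α) + σ(α)⁻¹ = σ(β)` is real, in `(-2, 2)`
(it is `z - 3` with `z` a root of `minpoly ℚ q`), so `|σ(α)| = 1`.  By
`NumberField.Embeddings.pow_eq_one_of_norm_eq_one` `α` is a root of unity, `α = exp(2πik/n)`,
`k` prime to `n`.  For `j` prime to `n` the numbers `α` and `exp(2πij/n)` have the same minimal
polynomial (`IsPrimitiveRoot.minpoly_eq_pow_coprime`), and `aeval (3 + x + x⁻¹) (minpoly ℚ q) = 0` is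
a polynomial equation for `x` over `ℚ`.  `n ≥ 3` as `q ≠ 5, 1`. -/
def S_KR : Prop := ∀ q : ℝ, IsIntegral ℤ q →
  (∀ z : ℂ, aeval z (minpoly ℚ q) = 0 → z.im = 0 ∧ 1 < z.re ∧ z.re < 5) →
  ∃ n : ℕ, 3 ≤ n ∧ ∃ k : ℕ, k.Coprime n ∧ q = 3 + 2 * Real.cos (2 * Real.pi * k / n) ∧
    ∀ j : ℕ, j.Coprime n →
      aeval (3 + 2 * Real.cos (2 * Real.pi * j / n)) (minpoly ℚ q) = 0

/-- the twelve values of `n` -/
def N12 : Finset ℕ := {3, 4, 5, 6, 7, 8, 10, 12, 14, 18, 22, 26}

/-- NT1. Proof: `3 + 2 cos x < 32/27` iff `cos x < -49/54`.  For odd `n ≥ 9` take `j = (n-1)/2`,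
`cos = -cos(π/n) ≤ -cos(π/9)`; if `4 ∣ n`, `n ≥ 16` take `j = n/2 - 1`, `cos = -cos(2π/n) ≤
-cos(π/8)`; if `n ≡ 2 mod 4`, `n ≥ 30`, take `j = n/2 - 2`, `cos = -cos(4π/n) ≤ -cos(2π/15)`.
Use `cos x ≥ 1 - x²/2` and `π < 3.15`. -/
def S_NT1 : Prop := ∀ n : ℕ, 3 ≤ n →
  (∀ j : ℕ, j.Coprime n → 32 / 27 ≤ 3 + 2 * Real.cos (2 * Real.pi * j / n)) → n ∈ N12

/-- the ten pairs `(a, b)` -/
def P10 : Finset (ℕ × ℕ) :=
  {(1, 7), (1, 8), (1, 10), (1, 12), (1, 14), (1, 18), (1, 22), (3, 22), (1, 26), (3, 26)}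

/-- NT2. Proof: reduce `k` mod `n` and use `cos(2π - x) = cos x`; then `k/n < 1/6`. -/
def S_NT2 : Prop := ∀ n ∈ N12, ∀ k : ℕ, k.Coprime n →
  4 < 3 + 2 * Real.cos (2 * Real.pi * k / n) →
  ∃ p ∈ P10, Real.cos (2 * Real.pi * k / n) = Real.cos (2 * Real.pi * (p.1 : ℝ) / (p.2 : ℝ))

/-- NT3. Proof: the same choices of `j` as in NT1 give `n ∈ {3, 4, 6, 10}`. -/
def S_NT3 : Prop := ∀ n : ℕ, 3 ≤ n →
  (∀ j : ℕ, j.Coprime n → 2 ≤ 3 + 2 * Real.cos (2 * Real.pi * j / n)) →
  ∀ k : ℕ, k.Coprime n → 3 + 2 * Real.cos (2 * Real.pi * k / n) ∈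
    ({2, 3, 4, (7 + √5) / 2, (7 - √5) / 2} : Set ℝ)

/-! ## Part 3: triangulations have no chromatic root in `(1, 2)` -/

/-- The graph induced on `U` is built up from an edge by adding vertices adjacent to two adjacent
vertices. -/
inductive DS {V : Type} [DecidableEq V] (G : SimpleGraph V) : Finset V → Prop
  | base (x y : V) (h : G.Adj x y) : DS G {x, y}
  | step (U : Finset V) (w x y : V) (hU : DS G U) (hw : w ∉ U) (hx : x ∈ U) (hy : y ∈ U)
      (hxy : G.Adj x y) (hwx : G.Adj w x) (hwy : G.Adj w y) : DS G (insert w U)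

/-- DD. Proof: `(-1)^|U| P(G[U],q) > 0` for `1 < q < 2`.  Induction over `U`, then over the number of
edges at the last vertex `w`: if `w` has only the neighbours `x, y` in `U` then
`P(G[U+w]) = (q-2) P(G[U])`; otherwise remove an edge `wz`, `z ≠ x, y`:
`P(G) = P(G - wz) - P(G/wz)`, and `G/wz` is `G[U]` with some edges added, to which induction applies
(the property is monotone in the edges). It may be easier to prove it for an inductive
predicate on types: `TT V G` if `|V| = 2` and complete, or there are `w`, `x`, `y` as above with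
`TT {u // u ≠ w} (G.comap Subtype.val)`. -/
def S_DD : Prop := ∀ (V : Type) [Fintype V] [DecidableEq V] (G : SimpleGraph V),
  DS G Finset.univ → ∀ q : ℝ, 1 < q → q < 2 → (chr G).eval q ≠ 0

section tri

variable {V : Type} [Fintype V] [DecidableEq V]

/-- an edge-maximal graph without weak `K₅` on the vertex set `S`: `|E| = 3 |S| - 6` (`EE` is the
set of ordered pairs, `mader` gives `|EE| ≤ 6 |S| - 12`) -/
def Tri (S : Finset V) (G : SimpleGraph V) : Prop :=
  3 ≤ S.card ∧ In S G ∧ ¬ WS (S : Set V) G ∧ (EE G).card + 12 = 6 * S.card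

/-- the part of `G` in `A` -/
def res (G : SimpleGraph V) (A : Finset V) : SimpleGraph V where
  Adj x y := x ∈ A ∧ y ∈ A ∧ G.Adj x y
  symm := ⟨fun _ _ h => ⟨h.2.1, h.1, h.2.2.symm⟩⟩
  loopless := ⟨fun _ h => h.2.2.ne rfl⟩

/-- `G` with the additional edge `x y` -/
def adde (G : SimpleGraph V) (x y : V) : SimpleGraph V where
  Adj u v := G.Adj u v ∨ (x ≠ y ∧ ((u = x ∧ v = y) ∨ (u = y ∧ v = x)))
  symm := ⟨by
    rintro u v (h | ⟨h, h' | h'⟩)
    · exact Or.inl h.symm
    · exact Or.inr ⟨h, Or.inr ⟨h'.2, h'.1⟩⟩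
    · exact Or.inr ⟨h, Or.inl ⟨h'.2, h'.1⟩⟩⟩
  loopless := ⟨by
    rintro u (h | ⟨h, h' | h'⟩)
    · exact h.ne rfl
    · exact h (h'.1.symm.trans h'.2)
    · exact h (h'.2.symm.trans h'.1)⟩

omit [DecidableEq V] in
theorem even_EE (G : SimpleGraph V) : Even (EE G).card := by
  classical
  have h := card_EE (G := G) (S := Finset.univ) (fun x y _ => ⟨Finset.mem_univ _, Finset.mem_univ _⟩)
  have h2 := G.sum_degrees_eq_twice_card_edges
  have h3 : ∀ x, (NN G x).card = G.degree x := by
    intro x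
    rw [← SimpleGraph.card_neighborFinset_eq_degree]
    congr 1
    ext y
    rw [mem_NN, SimpleGraph.mem_neighborFinset]
  rw [h, Finset.sum_congr rfl (fun x _ => h3 x), h2]
  exact even_two_mul _

/-- **Mader**: a graph on `S` without weak `K₅` has at most `3 |S| - 6` edges. -/
theorem mader_le {S : Finset V} {G : SimpleGraph V} (hS : In S G) (hW : ¬ WS (S : Set V) G)
    (h3 : 3 ≤ S.card) : (EE G).card + 12 ≤ 6 * S.card := by
  by_contra hcon
  have h1 : ¬ 6 * S.card ≤ (EE G).card + 10 := fun h => hW (mader S.card S G rfl hS h3 h)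
  obtain ⟨r, hr⟩ := even_EE G
  omega

end tri

/-- CN. Every edge of a triangulation with at least four vertices is in two triangles.  Proof:
`card_ctr` in Y655/RF/Deg.lean and `mader` for `ctr G u v` on `S.erase v` (`ws_ctr`). -/
def S_CN : Prop := ∀ (V : Type) [Fintype V] [DecidableEq V] (S : Finset V) (G : SimpleGraph V),
  Tri S G → 4 ≤ S.card → ∀ u v, G.Adj u v → 2 ≤ (NN G u ∩ NN G v).card

/-- PATH. If `x, y` are joined by a walk of `G` whose other vertices are in `P`, `P ⊆ S` disjoint
from `A ⊆ S`, `x, y ∈ A`, then `res G A` with the additional edge `x y` has no weak `K₅` if `G` has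
none.  Proof: a walk in `adde (res G A) x y` is replaced by a walk of `G`, `P` being added to all the
sets `A a b` of the weak `K₅` which contain both `x` and `y`; disjoint sets stay disjoint. -/
def S_PATH : Prop := ∀ (V : Type) [Fintype V] [DecidableEq V] (S : Finset V) (G : SimpleGraph V),
  ¬ WS (S : Set V) G → ∀ (A : Finset V) (P : Set V) (x y : V), A ⊆ S → P ⊆ S → (∀ z ∈ P, z ∉ A) →
  x ∈ A → y ∈ A → Cn G (P ∪ {x, y}) x y → ¬ WS (A : Set V) (adde (res G A) x y)

/-- SEP. Let `s, x, y` be vertices of the triangulation `G` on `S`, `Q ⊆ S` a nonempty set without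
`s, x, y`, not all of the remaining vertices, no edge between `Q` and `S \ (Q ∪ {s,x,y})`, `s`
adjacent to `x, y`. Suppose that `x, y` are adjacent, or that they are joined by a walk through
`Q` and by a walk through the rest. Then `x, y` are adjacent, and the part of `G` in `Q ∪ {s, x, y}`
is a triangulation.
Proof: let `A = Q ∪ {s,x,y}`, `B = S \ Q`; `|A| + |B| = |S| + 3`. If `x, y` are adjacent then
`|EE G| = |EE (res G A)| + |EE (res G B)| - 6`, and both are at most `6 |·| - 12` by `mader`, so there is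
equality. If not then `PATH` gives that `adde (res G A) x y` and `adde (res G B) x y` have no weak
`K₅`, so that `|EE (res G A)| ≤ 6 |A| - 14`, the same for `B`, and
`|EE G| = |EE (res G A)| + |EE (res G B)| - 4 ≤ 6 |S| + 18 - 28 - 4 < 6 |S| - 12`. -/
def S_SEP : Prop := ∀ (V : Type) [Fintype V] [DecidableEq V] (S : Finset V) (G : SimpleGraph V),
  Tri S G → ∀ (Q : Finset V) (s x y : V), Q ⊆ S → Q.Nonempty → s ∉ Q → x ∉ Q → y ∉ Q →
  (∀ u ∈ Q, ∀ v, G.Adj u v → v ∈ Q ∨ v = s ∨ v = x ∨ v = y) →
  x ≠ y → G.Adj s x → G.Adj s y →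
  (G.Adj x y ∨ (Cn G ((Q : Set V) ∪ {x, y}) x y ∧
    Cn G (({v | v ∈ S ∧ v ∉ Q ∧ v ≠ s ∧ v ≠ x ∧ v ≠ y} : Set V) ∪ {x, y}) x y)) →
  Tri (Q ∪ {s, x, y}) (res G (Q ∪ {s, x, y}))

/-- K5. Let `D` be a set of vertices adjacent to `s` such that any two vertices of `D` other than
`z` are joined by a walk in `D \ {z}`, for every `z` in `D`. Let `Q` be a set of vertices, any two of
which are joined by a walk inside `Q`, without `s` and disjoint from `D`, containing a neighbour `b`
of `s` and neighbours of three different vertices `x, y, z` of `D`.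
Then there is a weak `K₅`: the vertices are `x, y, z, s, b`, the sets are `D \ {z}` for `x, y` (and
similarly), `{s, x}` for `s, x`, `{s, b}` for `s, b` and `Q ∪ {x}` for `b, x`. -/
def S_K5 : Prop := ∀ (V : Type) [Fintype V] [DecidableEq V] (S : Finset V) (G : SimpleGraph V)
  (s : V) (D Q : Set V) (b : V), s ∈ S → D ⊆ S → Q ⊆ S → (∀ d ∈ D, G.Adj s d) →
  (∀ z ∈ D, ∀ x ∈ D, ∀ y ∈ D, x ≠ z → y ≠ z → Cn G (D \ {z}) x y) →
  s ∉ Q → (∀ d ∈ D, d ∉ Q) → (∀ u ∈ Q, ∀ v ∈ Q, Cn G Q u v) → b ∈ Q → G.Adj s b →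
  ∀ x ∈ D, ∀ y ∈ D, ∀ z ∈ D, x ≠ y → x ≠ z → y ≠ z →
  (∃ u ∈ Q, G.Adj x u) → (∃ u ∈ Q, G.Adj y u) → (∃ u ∈ Q, G.Adj z u) → WS (S : Set V) G

/-- CYC. In a finite set `A` every element of which has at least two neighbours in `A` there is
a cycle, that is, a set `D` with at least three elements such that for all `z` in `D`
any two elements of `D` other than `z` are joined by a walk in `D \ {z}`, and which contains two
adjacent vertices. Proof: take a path `v₀ v₁ … v_k` in `A` of maximal length; all neighbours of `v₀`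
in `A` are on the path, one of them is `v_j`, `j ≥ 2`; `D = {v₀, …, v_j}`. (Or: a finite acyclic graph
with an edge has a vertex of degree one.) -/
def S_CYC : Prop := ∀ (V : Type) [Fintype V] [DecidableEq V] (G : SimpleGraph V) (A : Finset V),
  A.Nonempty → (∀ a ∈ A, 2 ≤ (NN G a ∩ A).card) →
  ∃ D : Finset V, D ⊆ A ∧ 3 ≤ D.card ∧
    (∀ z ∈ D, ∀ x ∈ D, ∀ y ∈ D, x ≠ z → y ≠ z → Cn G ((D : Set V) \ {z}) x y) ∧
    (∀ x ∈ D, ∃ y ∈ D, G.Adj x y)

/-- LINK. In a triangulation the neighbours of a vertex are connected.  Proof: induction on `|S|`.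
Let `s ∈ S` and let `a, b` be neighbours of `s` not joined inside `N(s)`; `|S| ≥ 4`; let `A` be the set of the
vertices joined to `a` inside `N(s)`. By CN every vertex of `A` has at least two neighbours in `A`;
let `D ⊆ A` be the cycle of CYC. Let `Q` be the set of vertices joined to `b` outside `D ∪ {s}`. By K5 at most
two vertices of `D` have neighbours in `Q`. So there are `x ≠ y` in `D` which contain all vertices of `D` with
neighbours in `Q`; if there are not exactly two of them, choose `x, y` adjacent. SEP applies (if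
`x, y` are exactly the two attachments, they are joined through `Q`, and through `D \ {x,y}`
as `|D| ≥ 3`, unless they are adjacent). So the part of `G` in `Q ∪ {s, x, y}` is a smaller
triangulation, in which by induction `b` and `x` are joined inside the neighbourhood of `s`: but
`x ∈ A`, a contradiction. -/
def S_LINK : Prop := ∀ (V : Type) [Fintype V] [DecidableEq V] (S : Finset V) (G : SimpleGraph V),
  Tri S G → ∀ s a b, G.Adj s a → G.Adj s b → Cn G (G.neighborSet s) a b

/-- CONN. A triangulation is connected. Proof: otherwise `S` is the disjoint union of `A` and `B`, not empty,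
without edges between them, `|EE G| = |EE (res G A)| + |EE (res G B)|`; with `mader` (or
`card_EE_le` for at most two vertices) this is less than `6 |S| - 12`. -/
def S_CONN : Prop := ∀ (V : Type) [Fintype V] [DecidableEq V] (S : Finset V) (G : SimpleGraph V),
  Tri S G → ∀ u ∈ S, ∀ v ∈ S, Cn G (S : Set V) u v

/-- TD: from LINK and CONN. Proof: let `U` be a maximal set with `DS G U`; if it is not everything there is
an edge `s w`, `s ∈ U`, `w ∉ U`; `s` has a neighbour in `U`; by LINK there are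
adjacent `s', w'` in `N(s)` with `s' ∈ U`, `w' ∉ U`, so `U + w'` is possible. -/
def S_TD : Prop := ∀ (V : Type) [Fintype V] [DecidableEq V] (G : SimpleGraph V),
  Tri (Finset.univ : Finset V) G → DS G Finset.univ

/-- TR12: triangulations without weak `K₅` have no chromatic root in `(1, 2)`. -/
def S_TR12 : Prop := ∀ (V : Type) [Fintype V] (G : SimpleGraph V), ¬ WK V G →
  3 ≤ Fintype.card V → G.edgeSet.ncard + 6 = 3 * Fintype.card V →
  ∀ q : ℝ, 1 < q → q < 2 → (chr G).eval q ≠ 0

end Pool.Agent.TR80
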